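import Pool.Agent.DBX.Defs

set_option autoImplicit false

/-! # MP_2c751f_ag, squad DBX: basic facts on the Čech differential `cd` -/

namespace Pool.Agent.DBX

noncomputable section

section
variable {V : Type*} [LinearOrder V] {M N : Type*} [AddCommGroup M] [AddCommGroup N]

theorem cd_apply (x : Finset V → M) (σ : Finset V) :
    cd x σ = ∑ v ∈ σ, ((-1 : ℤ) ^ (σ.filter (fun w => w < v)).card) • x (σ.erase v) := rfl

theorem cd_empty (x : Finset V → M) : cd x ∅ = 0 := by simp [cd_apply]

theorem cd_singleton (x : Finset V → M) (v : V) : cd x {v} = x ∅ := by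
  simp [cd_apply, Finset.filter_singleton]

theorem cd_zero : cd (0 : Finset V → M) = 0 := by
  funext σ; simp [cd_apply]

theorem cd_add (x y : Finset V → M) : cd (x + y) = cd x + cd y := by
  funext σ
  simp only [cd_apply, Pi.add_apply, smul_add, Finset.sum_add_distrib]

theorem cd_neg (x : Finset V → M) : cd (-x) = - cd x := by
  funext σ
  simp only [cd_apply, Pi.neg_apply, smul_neg, Finset.sum_neg_distrib]

theorem cd_sub (x y : Finset V → M) : cd (x - y) = cd x - cd y := by
  rw [sub_eq_add_neg, cd_add, cd_neg, ← sub_eq_add_neg]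

/-- `cd` commutes with additive maps. -/
theorem cd_map (f : M →+ N) (x : Finset V → M) : cd (fun σ => f (x σ)) = fun σ => f (cd x σ) := by
  funext σ
  simp only [cd_apply, map_sum, map_zsmul]

theorem cd_sum {ι : Type*} (s : Finset ι) (x : ι → Finset V → M) :
    cd (∑ i ∈ s, x i) = ∑ i ∈ s, cd (x i) := by
  classical
  induction s using Finset.induction_on with
  | empty => simp [cd_zero]
  | insert a s ha ih => rw [Finset.sum_insert ha, Finset.sum_insert ha, cd_add, ih]

theorem cd_smul {R : Type*} [Ring R] [Module R M] (r : R) (x : Finset V → M) :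
    cd (r • x) = r • cd x := by
  funext σ
  simp only [cd_apply, Pi.smul_apply, Finset.smul_sum]
  exact Finset.sum_congr rfl (fun v _ => smul_comm _ _ _)

/-- `cd` as a linear map. -/
def cdL (R : Type*) [Ring R] (V : Type*) [LinearOrder V] (M : Type*) [AddCommGroup M]
    [Module R M] : (Finset V → M) →ₗ[R] (Finset V → M) where
  toFun := cd
  map_add' := cd_add
  map_smul' := fun r x => cd_smul r x

theorem cdL_apply {R : Type*} [Ring R] [Module R M] (x : Finset V → M) :
    cdL R V M x = cd x := rfl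

/-- sign `(-1)^{#{w ∈ σ, w < v}}` -/
def sg (σ : Finset V) (v : V) : ℤ := (-1) ^ (σ.filter (fun w => w < v)).card

theorem sg_mul_self (σ : Finset V) (v : V) : sg σ v * sg σ v = 1 := by
  unfold sg
  rw [← mul_pow]; simp

theorem cd_sg (x : Finset V → M) (σ : Finset V) : cd x σ = ∑ v ∈ σ, sg σ v • x (σ.erase v) := rfl

theorem sg_erase_lt {σ : Finset V} {u v : V} (hv : v ∈ σ) (h : v < u) :
    sg (σ.erase v) u = - sg σ u := by
  unfold sg
  have h1 : (σ.erase v).filter (fun w => w < u) = (σ.filter (fun w => w < u)).erase v := by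
    ext w; simp only [Finset.mem_filter, Finset.mem_erase]; tauto
  have h2 : v ∈ σ.filter (fun w => w < u) := by simp [hv, h]
  have h3 := Finset.card_erase_add_one h2
  rw [h1, ← h3, pow_succ]
  ring

theorem sg_erase_ge {σ : Finset V} {u v : V} (h : u ≤ v) :
    sg (σ.erase v) u = sg σ u := by
  unfold sg
  congr 2
  ext w
  simp only [Finset.mem_filter, Finset.mem_erase]
  constructor
  · rintro ⟨⟨_, h1⟩, h2⟩; exact ⟨h1, h2⟩
  · rintro ⟨h1, h2⟩; exact ⟨⟨ne_of_lt (lt_of_lt_of_le h2 h), h1⟩, h2⟩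

theorem sg_insert_lt {σ : Finset V} {u v : V} (hv : v ∉ σ) (h : v < u) :
    sg (insert v σ) u = - sg σ u := by
  have := sg_erase_lt (σ := insert v σ) (u := u) (Finset.mem_insert_self v σ) h
  rw [Finset.erase_insert hv] at this
  rw [this, neg_neg]

theorem sg_insert_ge {σ : Finset V} {u v : V} (hv : v ∉ σ) (h : u ≤ v) :
    sg (insert v σ) u = sg σ u := by
  have := sg_erase_ge (σ := insert v σ) (u := u) h
  rw [Finset.erase_insert hv] at this
  exact this.symm

/-- The basic sign rule. -/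
theorem sg_rule {σ : Finset V} {u v : V} (hu : u ∈ σ) (hv : v ∈ σ) (h : u ≠ v) :
    sg σ u * sg (σ.erase u) v = - (sg σ v * sg (σ.erase v) u) := by
  rcases lt_or_gt_of_ne h with h1 | h1
  · rw [sg_erase_lt hu h1, sg_erase_ge h1.le]; ring
  · rw [sg_erase_lt hv h1, sg_erase_ge h1.le]; ring

theorem cd_cd (x : Finset V → M) : cd (cd x) = 0 := by
  funext σ
  rw [cd_sg, Pi.zero_apply]
  have h1 : ∀ u ∈ σ, sg σ u • cd x (σ.erase u) =
      ∑ v ∈ σ.erase u, (sg σ u * sg (σ.erase u) v) • x ((σ.erase u).erase v) := by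
    intro u _
    rw [cd_sg, Finset.smul_sum]
    exact Finset.sum_congr rfl (fun v _ => by rw [smul_smul])
  rw [Finset.sum_congr rfl h1, Finset.sum_sigma']
  refine Finset.sum_involution (fun p _ => ⟨p.2, p.1⟩) ?_ ?_ ?_ ?_
  · rintro ⟨u, v⟩ hp
    simp only [Finset.mem_sigma, Finset.mem_erase] at hp
    obtain ⟨hu, hvu, hv⟩ := hp
    dsimp only
    rw [sg_rule hu hv (Ne.symm hvu), Finset.erase_right_comm, neg_smul]
    simp
  · rintro ⟨u, v⟩ hp _ h
    simp only [Finset.mem_sigma, Finset.mem_erase] at hp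
    obtain ⟨hu, hvu, hv⟩ := hp
    simp only [Sigma.mk.injEq] at h
    exact hvu h.1
  · rintro ⟨u, v⟩ hp
    simp only [Finset.mem_sigma, Finset.mem_erase] at hp ⊢
    obtain ⟨hu, hvu, hv⟩ := hp
    exact ⟨hv, Ne.symm hvu, hu⟩
  · rintro ⟨u, v⟩ _
    rfl

/-! ## Cards -/

/-- the part of degree `j` -/
def cpt (j : ℕ) (x : Finset V → M) (σ : Finset V) : M := if σ.card = j then x σ else 0

omit [LinearOrder V] in
theorem cpt_of_eq {j : ℕ} (x : Finset V → M) {σ : Finset V} (h : σ.card = j) :
    cpt j x σ = x σ := if_pos h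

omit [LinearOrder V] in
theorem cpt_of_ne {j : ℕ} (x : Finset V → M) {σ : Finset V} (h : σ.card ≠ j) :
    cpt j x σ = 0 := if_neg h

theorem cd_cpt (j : ℕ) (x : Finset V → M) : cd (cpt j x) = cpt (j + 1) (cd x) := by
  funext σ
  by_cases h : σ.card = j + 1
  · rw [cpt_of_eq _ h, cd_sg, cd_sg]
    refine Finset.sum_congr rfl (fun v hv => ?_)
    rw [cpt_of_eq]
    rw [Finset.card_erase_of_mem hv, h]; rfl
  · rw [cpt_of_ne _ h, cd_sg]
    refine Finset.sum_eq_zero (fun v hv => ?_)
    rw [cpt_of_ne, smul_zero]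
    intro h1
    have := Finset.card_erase_add_one hv
    omega

omit [LinearOrder V] in
theorem cpt_zero (j : ℕ) : cpt j (0 : Finset V → M) = 0 := by
  funext σ; unfold cpt; split_ifs <;> rfl

theorem cd_cpt_zero {x : Finset V → M} (h : cd x = 0) (j : ℕ) : cd (cpt j x) = 0 := by
  rw [cd_cpt, h, cpt_zero]

omit [LinearOrder V] in
theorem sum_cpt [Fintype V] (x : Finset V → M) :
    x = ∑ j ∈ Finset.range (Fintype.card V + 1), cpt j x := by
  funext σ
  rw [Finset.sum_apply, Finset.sum_eq_single σ.card]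
  · rw [cpt_of_eq _ rfl]
  · intro j _ hj
    exact cpt_of_ne _ (Ne.symm hj)
  · intro h
    exfalso
    apply h
    rw [Finset.mem_range]
    exact Nat.lt_succ_of_le (Finset.card_le_univ σ)

omit [LinearOrder V] in
/-- a cochain supported in degree `j` is its own part of degree `j` -/
theorem cpt_self {j : ℕ} {x : Finset V → M} (h : ∀ σ, σ.card ≠ j → x σ = 0) : cpt j x = x := by
  funext σ
  by_cases h1 : σ.card = j
  · exact cpt_of_eq _ h1
  · rw [cpt_of_ne _ h1, h σ h1]

theorem cd_card {j : ℕ} {x : Finset V → M} (h : ∀ σ, σ.card ≠ j → x σ = 0) {σ : Finset V}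
    (h1 : σ.card ≠ j + 1) : cd x σ = 0 := by
  rw [← cpt_self h, cd_cpt, cpt_of_ne _ h1]

/-! ## The contracting homotopy -/

/-- (k_u x) σ = (-1)^{#{w ∈ σ, w < u}} x (σ ∪ {u}) for `u ∉ σ`, and `0` for `u ∈ σ`. -/
def kk (u : V) (x : Finset V → M) (σ : Finset V) : M :=
  if u ∈ σ then 0 else sg σ u • x (insert u σ)

theorem kk_mem {u : V} (x : Finset V → M) {σ : Finset V} (h : u ∈ σ) : kk u x σ = 0 := if_pos h

theorem kk_not {u : V} (x : Finset V → M) {σ : Finset V} (h : u ∉ σ) :
    kk u x σ = sg σ u • x (insert u σ) := if_neg h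

/-- `cd k_u + k_u cd = 1`. -/
theorem cd_kk (u : V) (x : Finset V → M) : cd (kk u x) + kk u (cd x) = x := by
  funext σ
  rw [Pi.add_apply]
  by_cases h : u ∈ σ
  · rw [kk_mem _ h, add_zero, cd_sg, Finset.sum_eq_single u]
    · rw [kk_not _ (Finset.notMem_erase u σ), smul_smul, Finset.insert_erase h,
        sg_erase_ge le_rfl, sg_mul_self, one_smul]
    · intro v _ hv
      rw [kk_mem _ (Finset.mem_erase.mpr ⟨Ne.symm hv, h⟩), smul_zero]
    · intro h1; exact absurd h h1
  · rw [kk_not _ h, cd_sg, cd_sg, Finset.sum_insert h, Finset.erase_insert h, smul_add,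
      smul_smul]
    have e1 : sg σ u * sg (insert u σ) u = 1 := by
      rw [sg_insert_ge h le_rfl, sg_mul_self]
    rw [e1, one_smul, Finset.smul_sum, add_comm, add_assoc, ← Finset.sum_add_distrib]
    convert add_zero (x σ)
    refine Finset.sum_eq_zero (fun v hv => ?_)
    have hvu : u ≠ v := by rintro rfl; exact h hv
    have h2 : u ∉ σ.erase v := fun h3 => h (Finset.mem_of_mem_erase h3)
    have h3 : (insert u σ).erase v = insert u (σ.erase v) := Finset.erase_insert_of_ne hvu
    rw [kk_not _ h2, h3, smul_smul, smul_smul, ← add_smul]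
    convert zero_smul ℤ _
    rcases lt_or_gt_of_ne hvu with h4 | h4
    · rw [sg_insert_lt h h4, sg_erase_ge h4.le]; ring
    · rw [sg_insert_ge h h4.le, sg_erase_lt hv h4]; ring

/-- a cocycle is the coboundary of `k_u x`. -/
theorem cd_kk_of_cocycle (u : V) {x : Finset V → M} (h : cd x = 0) : cd (kk u x) = x := by
  have h1 := cd_kk u x
  have h2 : kk u (cd x) = 0 := by
    rw [h]
    funext σ
    unfold kk
    split_ifs
    · rfl
    · simp
  rwa [h2, add_zero] at h1

end

end

end Pool.Agent.DBX
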