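import Pool.Agent.DBX.Final

set_option autoImplicit false

/-! # MP_2c751f_ag, squad DBX: areas SRV (commutative algebra) and ALG (the final argument) -/

namespace Pool.Agent.DBX

open MvPolynomial

noncomputable section

universe u

/-! ## The class of data of the induction -/

section
variable {k : Type u} [Field k] {n : ℕ}

/-- Consequence of (S_r), inherited by generic hyperplane sections:
`pd_{S_q} (S/I)_q ≤ max (ht q - r) c` at all homogeneous primes `q ≠ 𝔪`. -/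
def Dat.PD (D : Dat k n) (r c : ℕ) : Prop :=
  ∀ (q : Ideal (Pol k n)) [q.IsPrime], HomIdeal q → D.I ≤ q → (∃ a, D.g a ∉ q) →
    ∀ e : ℕ, q.height ≤ e →
      CategoryTheory.HasProjectiveDimensionLE
        (ModuleCat.of (Localization.AtPrime q) (LocalizedModule q.primeCompl (Pol k n ⧸ D.I)))
        (max (e - r) c)

/-- `n - c ≤ dim S/I`. -/
def Dat.DM (D : Dat k n) (c : ℕ) : Prop :=
  (n : WithBot ℕ∞) ≤ ringKrullDim (Pol k n ⧸ D.I) + (c : WithBot ℕ∞)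

/-- The class of data of the induction. -/
structure Dat.Cls (D : Dat k n) (r c : ℕ) : Prop where
  good : D.Good
  c1 : 1 ≤ c
  r2 : 2 ≤ r
  ls : D.LogSmooth
  db : D.DB (c + r - 2)
  pd : D.PD r c
  dm : D.DM c

/-- `H^g` of the complex `Q(m)` is zero. -/
def Dat.QZ (D : Dat k n) (m : ℤ) (g : ℕ) : Prop :=
  ∀ x, D.InQ m x → (∀ σ τ, σ.card + τ.card ≠ g → x σ τ = 0) → dd x = 0 →
    ∃ y, D.InQ m y ∧ dd y = x

end

/-! ## Area SRV -/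

def Stmt_VAN : Prop :=
  ∀ (k : Type u) [Field k] [CharZero k] (n : ℕ) (D : Dat k n) (r c : ℕ), D.Good → 1 ≤ c →
    c + 1 ≤ n → D.PD r c → ∃ t0 : ℕ, ∀ t : ℕ, t0 ≤ t → ∀ g, g ≤ min r (n - c - 1) + 1 →
      D.AZ (-(t : ℤ)) g

def Stmt_INP : Prop :=
  ∀ (k : Type u) [Field k] [CharZero k] (n : ℕ) (D : Dat k (n + 1)) (r c : ℕ), 1 ≤ n → D.Good →
    (D.PD r c → D.sec.PD r c) ∧ (D.DM c → D.sec.DM c)

/-- (S_r), `r ≥ 2`, implies `PD`, and the dimension formula. -/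
def Stmt_SPD : Prop :=
  ∀ (k : Type u) [Field k] [CharZero k] (n : ℕ) (I : Ideal (Pol k n)) (r c d : ℕ), HomIdeal I →
    I ≠ ⊤ → 2 ≤ r → SerreCond (Pol k n ⧸ I) r → ringKrullDim (Pol k n ⧸ I) = d → n = d + c →
    (∀ (M δ : ℕ) (f : Fin M → Pol k n), (mkDat I M δ f).PD r c) ∧
    ∀ (P : Ideal (Pol k n ⧸ I)) [P.IsPrime],
      ((P.comap (Ideal.Quotient.mk I)).height : WithBot ℕ∞) =
        ringKrullDim (Localization.AtPrime P) + (c : WithBot ℕ∞)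

/-- Depth at the irrelevant ideal. -/
def Stmt_DEP : Prop :=
  ∀ (k : Type u) [Field k] [CharZero k] (n : ℕ) (I : Ideal (Pol k n)) (r d : ℕ), HomIdeal I →
    I ≠ ⊤ → SerreCond (Pol k n ⧸ I) r → ringKrullDim (Pol k n ⧸ I) = d → d + 1 ≤ n →
    ∀ (M δ : ℕ) (f : Fin M → Pol k n) (m : ℤ) (g : ℕ), g ≤ min r d → (mkDat I M δ f).LC m g

/-- If `H^j_𝔪(S/I) = 0` for all `j < dim S/I`, then `S/I` is Cohen–Macaulay. -/
def Stmt_CMQ : Prop :=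
  ∀ (k : Type u) [Field k] [CharZero k] (n : ℕ) (I : Ideal (Pol k n)) (d : ℕ), HomIdeal I →
    I ≠ ⊤ → ringKrullDim (Pol k n ⧸ I) = d →
    (∀ (j : ℕ) (m : ℤ), j < d → LCZero I j m) → CM (Pol k n ⧸ I)

/-! ## Area ALG -/

/-- If the forms generate everywhere (`n ≤ e + 1`), `Q(m)` is exact. -/
def Stmt_QZ0 : Prop :=
  ∀ (k : Type u) [Field k] [CharZero k] (n : ℕ) (D : Dat k n) (e : ℕ), D.Good → D.DB e →
    n ≤ e + 1 → ∀ m g, D.QZ m g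

/-- Claim 1. -/
def Stmt_CL1 : Prop :=
  ∀ (k : Type u) [Field k] [CharZero k] (n : ℕ) (D : Dat k n) (r c : ℕ), D.Cls r c →
    ∀ m g, g ≤ r → D.QZ m g

/-- Claim 2: `l : H^{r+1}(I)_{-1} → H^{r+1}(I)_0` is injective over `k'`. -/
def Stmt_CL2 : Prop :=
  ∀ (k : Type u) [Field k] [CharZero k] (n : ℕ) (D : Dat k (n + 1)) (r c : ℕ), 1 ≤ n →
    D.Cls r c → c + r ≤ n →
    ∀ x : Finset (Fin D.p) → Fr (Kx k n) (n + 1), x ∅ = 0 → (∀ σ, x σ ∈ D.bc.Eg (-1) σ ∅) →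
      (∀ σ, σ.card ≠ r + 1 → x σ = 0) → (∀ σ, cd x σ = 0) →
      ∀ u : Finset (Fin D.p) → Fr (Kx k n) (n + 1), (∀ σ, u σ ∈ D.bc.Eg 0 σ ∅) →
        (∀ σ, cd u σ = inc _ _ (lgen k n) * x σ) →
        ∃ y : Finset (Fin D.p) → Fr (Kx k n) (n + 1), y ∅ = 0 ∧ (∀ σ, y σ ∈ D.bc.Eg (-1) σ ∅) ∧
          ∀ σ, cd y σ = x σ

end

end Pool.Agent.DBX
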