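import Pool.Agent.DBX.ALG.BCD
import Pool.Agent.DBX.ALG.BCU
import Pool.Agent.DBX.ALG.BZE
import Pool.Agent.DBX.ALG.CDD
import Pool.Agent.DBX.ALG.CL1
import Pool.Agent.DBX.ALG.CL2
import Pool.Agent.DBX.ALG.CLA
import Pool.Agent.DBX.ALG.CLB
import Pool.Agent.DBX.ALG.CLS
import Pool.Agent.DBX.ALG.CMP
import Pool.Agent.DBX.ALG.CO1
import Pool.Agent.DBX.ALG.DBX
import Pool.Agent.DBX.ALG.DEG
import Pool.Agent.DBX.ALG.DUP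
import Pool.Agent.DBX.ALG.EGR
import Pool.Agent.DBX.ALG.ELO
import Pool.Agent.DBX.ALG.EML
import Pool.Agent.DBX.ALG.EMO
import Pool.Agent.DBX.ALG.HCO
import Pool.Agent.DBX.ALG.HFI
import Pool.Agent.DBX.ALG.HHT
import Pool.Agent.DBX.ALG.HI0
import Pool.Agent.DBX.ALG.HIL
import Pool.Agent.DBX.ALG.INI
import Pool.Agent.DBX.ALG.IZE
import Pool.Agent.DBX.ALG.LC1
import Pool.Agent.DBX.ALG.LCS
import Pool.Agent.DBX.ALG.LCT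
import Pool.Agent.DBX.ALG.LIN
import Pool.Agent.DBX.ALG.LSU
import Pool.Agent.DBX.ALG.MAIN
import Pool.Agent.DBX.ALG.NEG
import Pool.Agent.DBX.ALG.NUM
import Pool.Agent.DBX.ALG.QQ1
import Pool.Agent.DBX.ALG.QQ2
import Pool.Agent.DBX.ALG.QZ0
import Pool.Agent.DBX.ALG.REG
import Pool.Agent.DBX.ALG.SCZ
import Pool.Agent.DBX.ALG.ST1
import Pool.Agent.DBX.ALG.STA
import Pool.Agent.DBX.ALG.TOT
import Pool.Agent.DBX.ALG.TRS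
import Pool.Agent.DBX.ALG.UNE
import Pool.Agent.DBX.GEN.All
import Pool.Agent.DBX.CMD.All
import Pool.Agent.DBX.SPR.All
import Pool.Agent.DBX.DIA.All
import Pool.Agent.DBX.SER.All
import Pool.Agent.DBX.SUR.All
import Pool.Agent.DBX.SRV.Main

set_option autoImplicit false

/-! # MP_2c751f_ag, squad DBX: the final assembly -/

namespace Pool.Agent.DBX

open ALG

universe u

theorem MAIN : Pool.Agent.DBX.Stmt_MAIN.{u} := by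
  have hHFI : Pool.Agent.DBX.ALG.Stmt_HFI.{u} := hfi_proof.{u}
  have hHCO : Pool.Agent.DBX.ALG.Stmt_HCO.{u} := hco_proof.{u}
  have hCMQ : Pool.Agent.DBX.Stmt_CMQ.{u} := (CMD.a_cmq hHFI hHCO)
  have hNUM : Stmt_NUM := num_proof
  have hINH : Pool.Agent.DBX.Stmt_INH.{u} := GEN.INH.{u}
  have hINP : Pool.Agent.DBX.Stmt_INP.{u} := (SRV.Asm.ok_INP GEN.aFLT.{u})
  have hCLS : Pool.Agent.DBX.ALG.Stmt_CLS.{u} := cls_proof hINH hINP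
  have hSEC : Pool.Agent.DBX.Stmt_SEC.{u} := GEN.SEC.{u}
  have hBAS : Pool.Agent.DBX.Stmt_BAS.{u} := GEN.BAS.{u}
  have hBCU : Pool.Agent.DBX.ALG.Stmt_BCU.{u} := bcu_proof hBAS
  have hCDD : Pool.Agent.DBX.ALG.Stmt_CDD.{u} := cdd_proof.{u}
  have hDEG : Pool.Agent.DBX.ALG.Stmt_DEG.{u} := deg_proof.{u}
  have hLCS : Pool.Agent.DBX.ALG.Stmt_LCS.{u} := lcs_proof hSEC hINH hBCU hCDD hDEG
  have hEGR : Pool.Agent.DBX.ALG.Stmt_EGR.{u} := egr_proof hHFI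
  have hHHT : Pool.Agent.DBX.ALG.Stmt_HHT.{u} := hht_proof.{u}
  have hVAN : Pool.Agent.DBX.Stmt_VAN.{u} := (SRV.Asm.ok_VAN hEGR hHFI hHHT (CMD.rsq_proof CMD.tor_proof.{u, u}))
  have hINJ : Pool.Agent.DBX.Stmt_INJ.{u} := (SPR.a_INJ DIA.a_di.{u} SER.a_ser1.{u, u})
  have hSUR0 : Pool.Agent.DBX.Stmt_SUR0.{u} := (SUR.a_sur0 hINJ SER.a_ser2.{u, u} SER.a_ser3.{u, u})
  have hEMO : Pool.Agent.DBX.ALG.Stmt_EMO.{u} := emo_proof.{u}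
  have hLIN : Pool.Agent.DBX.ALG.Stmt_LIN.{u} := lin_proof hSEC hINH hCDD hDEG hEMO
  have hSUR1 : Pool.Agent.DBX.Stmt_SUR1.{u} := (SUR.a_sur1 hINJ SER.a_ser2.{u, u} SER.a_ser3.{u, u})
  have hEML : Pool.Agent.DBX.ALG.Stmt_EML.{u} := EML_proof.{u}
  have hBZE : Pool.Agent.DBX.ALG.Stmt_BZE.{u} := bze_proof hSUR1 hCDD hDEG hEMO hEML
  have hTOT : Pool.Agent.DBX.ALG.Stmt_TOT.{u} := tot_proof hCDD
  have hELO : Pool.Agent.DBX.ALG.Stmt_ELO.{u} := elo_proof.{u}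
  have hCLA : Pool.Agent.DBX.ALG.Stmt_CLA.{u} := cla_proof hCDD hEML hHFI hEGR hHCO hHHT
  have hCLB : Pool.Agent.DBX.ALG.Stmt_CLB.{u} := clb_proof hCDD hEMO hEML hELO hCLA
  have hQZ0 : Pool.Agent.DBX.Stmt_QZ0.{u} := qz0_proof hTOT hEMO hCLB
  have hLSU : Pool.Agent.DBX.ALG.Stmt_LSU.{u} := lsu_proof hSEC hINH hCDD hDEG hEMO
  have hST1 : Pool.Agent.DBX.ALG.Stmt_ST1.{u} := st1_proof hVAN hINH hBCU hLSU hLIN hBZE hCDD hDEG hEMO hEML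
  have hBCD : Pool.Agent.DBX.ALG.Stmt_BCD.{u} := bcd_proof hBAS
  have hCL1 : Pool.Agent.DBX.Stmt_CL1.{u} := cl1_proof hQZ0 hST1 hBCD hCLS
  have hCL2 : Pool.Agent.DBX.Stmt_CL2.{u} := cl2_proof hVAN hINH hSUR0 hBCU hLIN hBZE hCL1 hCLS hCDD hDEG hEMO hEML
  have hLCT : Pool.Agent.DBX.ALG.Stmt_LCT.{u} := lct_proof hSEC hINH hBCU hCL2 hCDD hDEG
  have hLC1 : Pool.Agent.DBX.ALG.Stmt_LC1.{u} := lc1_proof.{u}
  have hSTA : Pool.Agent.DBX.ALG.Stmt_STA.{u} := sta_proof hINH hINP hCLS hLCS hLCT hLC1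
  have hHIL : Pool.Agent.DBX.ALG.Stmt_HIL.{u} := hil_proof hSEC hBAS hINH hBCU
  have hHI0 : Pool.Agent.DBX.ALG.Stmt_HI0.{u} := hi0_proof hINP
  have hQQ1 : Pool.Agent.DBX.ALG.Stmt_QQ1.{u} := qq1_proof hSTA hHIL hHI0
  have hREG : Pool.Agent.DBX.ALG.Stmt_REG.{u} := reg_proof hLCS
  have hNEG : Pool.Agent.DBX.ALG.Stmt_NEG.{u} := neg_proof.{u}
  have hTRS : Pool.Agent.DBX.ALG.Stmt_TRS.{u} := trs_proof hCDD hEMO hEML hELO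
  have hDUP : Pool.Agent.DBX.ALG.Stmt_DUP.{u} := dup_proof hSEC hBCU hBCD hINH hTRS hCDD hDEG
  have hQQ2 : Pool.Agent.DBX.ALG.Stmt_QQ2.{u} := qq2_proof hSTA hREG hINH hNEG hDUP
  have hSCZ : Pool.Agent.DBX.ALG.Stmt_SCZ.{u} := scz_proof.{u}
  have hCMP : Pool.Agent.DBX.ALG.Stmt_CMP.{u} := cmp_proof hSCZ hCDD hDEG
  have hIZE : Pool.Agent.DBX.ALG.Stmt_IZE.{u} := ize_proof hSCZ hCMQ
  have hCO1 : Pool.Agent.DBX.ALG.Stmt_CO1.{u} := co1_proof.{u}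
  have hSPD : Pool.Agent.DBX.Stmt_SPD.{u} := SRV.Asm.ok_SPD.{u}
  have hDEP : Pool.Agent.DBX.Stmt_DEP.{u} := (CMD.a_dep hHFI hCMP)
  have hUNE : Pool.Agent.DBX.ALG.Stmt_UNE.{u} := une_proof hCDD
  have hDBX : Pool.Agent.DBX.ALG.Stmt_DBX.{u} := dbx_proof hUNE
  have hINI : Pool.Agent.DBX.ALG.Stmt_INI.{u} := ini_proof hSPD hDEP hDBX hLC1
  exact main_proof hCMQ hNUM hQQ1 hQQ2 hCMP hIZE hCO1 hINI

end Pool.Agent.DBX
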