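import Pool.Agent.DBX.Defs

set_option autoImplicit false
set_option linter.unusedSectionVars false

/-! # MP_2c751f_ag, squad DBX: toolbox on the differentials `cd` and `dd` -/

namespace Pool.Agent.DBX.Q

open Finset

section Cd

variable {V : Type*} [LinearOrder V] {M N : Type*} [AddCommGroup M] [AddCommGroup N]

/-- The sign of `v` in `σ`. -/
def sg (v : V) (σ : Finset V) : ℤ := (-1 : ℤ) ^ (σ.filter (fun w => w < v)).card

theorem sg_mul_self (v : V) (σ : Finset V) : sg v σ * sg v σ = 1 := by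
  unfold sg
  rw [← pow_add, ← two_mul, pow_mul]
  simp

theorem cd_eq (x : Finset V → M) (σ : Finset V) :
    cd x σ = ∑ v ∈ σ, sg v σ • x (σ.erase v) := rfl

theorem sg_erase_of_lt {v w : V} {σ : Finset V} (hv : v ∈ σ) (h : v < w) :
    sg w (σ.erase v) = - sg w σ := by
  unfold sg
  have h1 : (σ.erase v).filter (fun u => u < w) = (σ.filter (fun u => u < w)).erase v := by
    ext u
    simp only [mem_filter, mem_erase]
    tauto
  have h2 : v ∈ σ.filter (fun u => u < w) := by simp [hv, h]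
  rw [h1, card_erase_of_mem h2]
  have h3 : 0 < (σ.filter (fun u => u < w)).card := card_pos.mpr ⟨v, h2⟩
  obtain ⟨c, hc⟩ : ∃ c, (σ.filter (fun u => u < w)).card = c + 1 := ⟨_, (Nat.succ_pred_eq_of_pos h3).symm⟩
  rw [hc, Nat.add_sub_cancel, pow_succ]
  ring

theorem sg_erase_of_not_lt {v w : V} {σ : Finset V} (h : ¬ v < w) :
    sg w (σ.erase v) = sg w σ := by
  unfold sg
  congr 2
  ext u
  simp only [mem_filter, mem_erase]
  constructor
  · rintro ⟨⟨_, a⟩, b⟩; exact ⟨a, b⟩
  · rintro ⟨a, b⟩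
    refine ⟨⟨?_, a⟩, b⟩
    rintro rfl
    exact h b

theorem sg_erase_self (v : V) (σ : Finset V) : sg v (σ.erase v) = sg v σ :=
  sg_erase_of_not_lt (lt_irrefl v)

theorem sg_insert_of_lt {v w : V} {σ : Finset V} (hv : v ∉ σ) (h : v < w) :
    sg w (insert v σ) = - sg w σ := by
  have := sg_erase_of_lt (mem_insert_self v σ) h
  rw [erase_insert hv] at this
  rw [this, neg_neg]

theorem sg_insert_of_not_lt {v w : V} {σ : Finset V} (hv : v ∉ σ) (h : ¬ v < w) :
    sg w (insert v σ) = sg w σ := by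
  have := sg_erase_of_not_lt (σ := insert v σ) h
  rw [erase_insert hv] at this
  exact this.symm

theorem sg_insert_self {v : V} {σ : Finset V} (hv : v ∉ σ) : sg v (insert v σ) = sg v σ :=
  sg_insert_of_not_lt hv (lt_irrefl v)

/-- The sign rule. -/
theorem sg_comm {v w : V} {σ : Finset V} (hv : v ∈ σ) (hw : w ∈ σ) (h : v ≠ w) :
    sg v σ * sg w (σ.erase v) = - (sg w σ * sg v (σ.erase w)) := by
  rcases lt_or_gt_of_ne h with h1 | h1
  · rw [sg_erase_of_lt hv h1, sg_erase_of_not_lt (not_lt.mpr h1.le)]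
    ring
  · rw [sg_erase_of_lt hw h1, sg_erase_of_not_lt (not_lt.mpr h1.le)]
    ring

/-! ### Linearity -/

theorem cd_map {F : Type*} [FunLike F M N] [AddMonoidHomClass F M N] (f : F) (x : Finset V → M)
    (σ : Finset V) : cd (fun s => f (x s)) σ = f (cd x σ) := by
  rw [cd_eq, cd_eq, map_sum]
  refine sum_congr rfl fun v _ => ?_
  rw [map_zsmul]

theorem cd_add (x y : Finset V → M) : cd (x + y) = cd x + cd y := by
  funext σ
  simp only [cd_eq, Pi.add_apply, smul_add, sum_add_distrib]

theorem cd_zero : cd (0 : Finset V → M) = 0 := by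
  funext σ
  simp [cd_eq]

theorem cd_neg (x : Finset V → M) : cd (-x) = - cd x := by
  funext σ
  simp only [cd_eq, Pi.neg_apply, smul_neg, sum_neg_distrib]

theorem cd_sub (x y : Finset V → M) : cd (x - y) = cd x - cd y := by
  rw [sub_eq_add_neg, cd_add, cd_neg, ← sub_eq_add_neg]

/-- `cd` as an additive map. -/
def cdH : (Finset V → M) →+ (Finset V → M) where
  toFun := cd
  map_zero' := cd_zero
  map_add' := cd_add

theorem cdH_apply (x : Finset V → M) : cdH x = cd x := rfl

theorem cd_sum {ι : Type*} (s : Finset ι) (x : ι → Finset V → M) :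
    cd (∑ i ∈ s, x i) = ∑ i ∈ s, cd (x i) := map_sum (cdH (V := V) (M := M)) x s

theorem cd_zsmul (c : ℤ) (x : Finset V → M) : cd (c • x) = c • cd x :=
  map_zsmul (cdH (V := V) (M := M)) c x

theorem cd_nsmul (c : ℕ) (x : Finset V → M) : cd (c • x) = c • cd x :=
  map_nsmul (cdH (V := V) (M := M)) c x

theorem cd_smul {R : Type*} [Monoid R] [DistribMulAction R M] (c : R) (x : Finset V → M) :
    cd (c • x) = c • cd x := by
  funext σ
  exact cd_map (DistribSMul.toAddMonoidHom M c) x σ

theorem cd_mul {R : Type*} [Ring R] (c : R) (x : Finset V → R) (σ : Finset V) :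
    cd (fun s => c * x s) σ = c * cd x σ :=
  cd_map (AddMonoidHom.mulLeft c) x σ

theorem cd_congr {x y : Finset V → M} {σ : Finset V} (h : ∀ v ∈ σ, x (σ.erase v) = y (σ.erase v)) :
    cd x σ = cd y σ := by
  rw [cd_eq, cd_eq]
  exact sum_congr rfl fun v hv => by rw [h v hv]

/-- `cd` as a linear map. -/
def cdL (R : Type*) [Ring R] [Module R M] : (Finset V → M) →ₗ[R] (Finset V → M) where
  toFun := cd
  map_add' := cd_add
  map_smul' c x := cd_smul c x

@[simp] theorem cd_empty (x : Finset V → M) : cd x ∅ = 0 := by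
  rw [cd_eq, sum_empty]

theorem cd_singleton (x : Finset V → M) (v : V) : cd x {v} = x ∅ := by
  rw [cd_eq, sum_singleton, sg, erase_singleton]
  have : ({v} : Finset V).filter (fun w => w < v) = ∅ := by
    ext w
    simp only [mem_filter, mem_singleton, notMem_empty, iff_false, not_and]
    rintro rfl
    exact lt_irrefl _
  rw [this]
  simp

theorem cd_pair (x : Finset V → M) {v w : V} (h : v < w) : cd x {v, w} = x {w} - x {v} := by
  have hvw : v ≠ w := h.ne
  rw [cd_eq, sum_pair hvw]
  have e1 : ({v, w} : Finset V).erase v = {w} := by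
    ext u
    simp only [mem_erase, mem_insert, mem_singleton]
    constructor
    · rintro ⟨a, b | b⟩
      · exact absurd b a
      · exact b
    · rintro rfl
      exact ⟨hvw.symm, Or.inr rfl⟩
  have e2 : ({v, w} : Finset V).erase w = {v} := by
    ext u
    simp only [mem_erase, mem_insert, mem_singleton]
    constructor
    · rintro ⟨a, b | b⟩
      · exact b
      · exact absurd b a
    · rintro rfl
      exact ⟨hvw, Or.inl rfl⟩
  have s1 : sg v ({v, w} : Finset V) = 1 := by
    unfold sg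
    have : ({v, w} : Finset V).filter (fun u => u < v) = ∅ := by
      ext u
      simp only [mem_filter, mem_insert, mem_singleton, notMem_empty, iff_false, not_and]
      rintro (rfl | rfl)
      · exact lt_irrefl _
      · exact not_lt.mpr h.le
    rw [this]; simp
  have s2 : sg w ({v, w} : Finset V) = -1 := by
    unfold sg
    have : ({v, w} : Finset V).filter (fun u => u < w) = {v} := by
      ext u
      simp only [mem_filter, mem_insert, mem_singleton]
      constructor
      · rintro ⟨rfl | rfl, b⟩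
        · rfl
        · exact absurd b (lt_irrefl _)
      · rintro rfl
        exact ⟨Or.inl rfl, h⟩
    rw [this]; simp
  rw [e1, e2, s1, s2]
  simp [sub_eq_add_neg]

/-- `cd ∘ cd = 0` -/
theorem cd_cd (x : Finset V → M) : cd (cd x) = 0 := by
  funext σ
  show cd (cd x) σ = 0
  rw [cd_eq]
  simp only [cd_eq x, smul_sum, smul_smul]
  rw [sum_sigma']
  refine sum_involution (fun a _ => ⟨a.2, a.1⟩) ?_ ?_ ?_ ?_
  · rintro ⟨v, w⟩ ha
    simp only [mem_sigma, mem_erase] at ha
    obtain ⟨hv, hwv, hw⟩ := ha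
    show (sg v σ * sg w (σ.erase v)) • x ((σ.erase v).erase w) +
      (sg w σ * sg v (σ.erase w)) • x ((σ.erase w).erase v) = 0
    rw [sg_comm hv hw (Ne.symm hwv), erase_right_comm, neg_smul, neg_add_cancel]
  · rintro ⟨v, w⟩ ha _ h
    simp only [mem_sigma, mem_erase] at ha
    have : w = v := congrArg Sigma.fst h
    exact ha.2.1 this
  · rintro ⟨v, w⟩ ha
    simp only [mem_sigma, mem_erase] at ha ⊢
    exact ⟨ha.2.2, fun h => ha.2.1 h.symm, ha.1⟩
  · rintro ⟨v, w⟩ ha
    rfl

theorem cd_cd_apply (x : Finset V → M) (σ : Finset V) : cd (cd x) σ = 0 := by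
  rw [cd_cd]; rfl

/-- `cd` preserves families of subgroups that are monotone. -/
theorem cd_mem {F : Finset V → AddSubgroup M} {x : Finset V → M} {σ : Finset V}
    (hF : ∀ v ∈ σ, F (σ.erase v) ≤ F σ) (hx : ∀ v ∈ σ, x (σ.erase v) ∈ F (σ.erase v)) :
    cd x σ ∈ F σ := by
  rw [cd_eq]
  exact AddSubgroup.sum_mem _ fun v hv => AddSubgroup.zsmul_mem _ (hF v hv (hx v hv)) _

theorem cd_mem' {G : AddSubgroup M} {x : Finset V → M} {σ : Finset V}
    (hx : ∀ v ∈ σ, x (σ.erase v) ∈ G) : cd x σ ∈ G := by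
  rw [cd_eq]
  exact AddSubgroup.sum_mem _ fun v hv => AddSubgroup.zsmul_mem _ (hx v hv) _

theorem cd_mem_submodule {R : Type*} [Ring R] [Module R M] {G : Submodule R M} {x : Finset V → M}
    {σ : Finset V} (hx : ∀ v ∈ σ, x (σ.erase v) ∈ G) : cd x σ ∈ G :=
  cd_mem' (G := G.toAddSubgroup) hx

/-! ### The card grading -/

/-- The component supported on sets with `j` elements. -/
def crd (j : ℕ) (x : Finset V → M) (σ : Finset V) : M := if σ.card = j then x σ else 0

theorem crd_of_eq {j : ℕ} (x : Finset V → M) {σ : Finset V} (h : σ.card = j) : crd j x σ = x σ :=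
  if_pos h

theorem crd_of_ne {j : ℕ} (x : Finset V → M) {σ : Finset V} (h : σ.card ≠ j) : crd j x σ = 0 :=
  if_neg h

theorem crd_self {j : ℕ} {x : Finset V → M} (h : ∀ σ, σ.card ≠ j → x σ = 0) : crd j x = x := by
  funext σ
  by_cases hs : σ.card = j
  · exact crd_of_eq x hs
  · rw [crd_of_ne x hs, h σ hs]

theorem crd_mem {F : Finset V → AddSubgroup M} {x : Finset V → M} {j : ℕ} {σ : Finset V}
    (hx : x σ ∈ F σ) : crd j x σ ∈ F σ := by
  unfold crd
  split
  · exact hx
  · exact zero_mem _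

theorem cd_crd (j : ℕ) (x : Finset V → M) : cd (crd j x) = crd (j + 1) (cd x) := by
  funext σ
  unfold crd
  by_cases h : σ.card = j + 1
  · rw [if_pos h]
    refine cd_congr fun v hv => ?_
    rw [if_pos (by rw [card_erase_of_mem hv, h]; rfl)]
  · rw [if_neg h, cd_eq]
    refine sum_eq_zero fun v hv => ?_
    rw [if_neg, smul_zero]
    rw [card_erase_of_mem hv]
    have : 0 < σ.card := card_pos.mpr ⟨v, hv⟩
    omega

/-- `cd` raises the card by one. -/
theorem cd_card {j : ℕ} {x : Finset V → M} (h : ∀ σ, σ.card ≠ j → x σ = 0) (σ : Finset V)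
    (hs : σ.card ≠ j + 1) : cd x σ = 0 := by
  have := congrFun (cd_crd j x) σ
  rw [crd_self h, crd_of_ne _ hs] at this
  exact this

/-- If `cd y = x` and `x` lives on card `j + 1`, one may replace `y` by its card `j` component. -/
theorem cd_crd_of {j : ℕ} {x y : Finset V → M} (hx : ∀ σ, σ.card ≠ j + 1 → x σ = 0)
    (h : cd y = x) : cd (crd j y) = x := by
  rw [cd_crd, h, crd_self hx]

theorem eq_zero_of_card_zero {x y : Finset V → M} (hx : ∀ σ, σ.card ≠ 0 → x σ = 0)
    (h : cd y = x) : x = 0 := by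
  funext σ
  by_cases hs : σ.card = 0
  · rw [card_eq_zero] at hs
    rw [← h, hs, cd_empty]; rfl
  · exact hx σ hs

theorem sum_crd [Fintype V] (x : Finset V → M) :
    ∑ j ∈ range (Fintype.card V + 1), crd j x = x := by
  funext σ
  rw [Finset.sum_apply]
  rw [sum_eq_single σ.card]
  · exact crd_of_eq x rfl
  · intro j _ hj
    exact crd_of_ne x (Ne.symm hj)
  · intro h
    exact absurd (mem_range.mpr (Nat.lt_succ_of_le (card_le_univ σ))) h

/-! ### Contraction -/

/-- Insertion of `v`. -/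
def ins (v : V) (x : Finset V → M) (σ : Finset V) : M :=
  if v ∈ σ then 0 else sg v σ • x (insert v σ)

theorem ins_of_mem {v : V} {σ : Finset V} (x : Finset V → M) (h : v ∈ σ) : ins v x σ = 0 :=
  if_pos h

theorem ins_of_notMem {v : V} {σ : Finset V} (x : Finset V → M) (h : v ∉ σ) :
    ins v x σ = sg v σ • x (insert v σ) := if_neg h

theorem ins_zero (v : V) : ins v (0 : Finset V → M) = 0 := by
  funext σ
  unfold ins
  split <;> simp

theorem ins_mem {v : V} {σ : Finset V} {x : Finset V → M} {G : AddSubgroup M}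
    (h : v ∉ σ → x (insert v σ) ∈ G) : ins v x σ ∈ G := by
  unfold ins
  split
  · exact zero_mem _
  · next hv => exact AddSubgroup.zsmul_mem _ (h hv) _

/-- The homotopy formula. -/
theorem cd_ins (v : V) (x : Finset V → M) (σ : Finset V) :
    cd (ins v x) σ + ins v (cd x) σ = x σ := by
  by_cases hv : v ∈ σ
  · rw [ins_of_mem _ hv, add_zero, cd_eq, sum_eq_single v]
    · rw [ins_of_notMem _ (notMem_erase v σ), smul_smul, sg_erase_self, sg_mul_self, one_smul,
        insert_erase hv]
    · intro w _ hw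
      rw [ins_of_mem _ (mem_erase.mpr ⟨Ne.symm hw, hv⟩), smul_zero]
    · intro h
      exact absurd hv h
  · rw [ins_of_notMem _ hv, cd_eq (x := x), sum_insert hv, erase_insert hv, smul_add, smul_smul,
      sg_insert_self hv, sg_mul_self, one_smul, cd_eq, smul_sum, add_left_comm, ← sum_add_distrib,
      sum_eq_zero, add_zero]
    intro w hw
    have hvw : v ≠ w := fun h => hv (h ▸ hw)
    have h1 : v ∉ σ.erase w := fun h => hv (mem_of_mem_erase h)
    rw [ins_of_notMem _ h1, smul_smul, smul_smul, erase_insert_of_ne hvw, ← add_smul]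
    have h2 := sg_comm (mem_insert_self v σ) (mem_insert_of_mem hw) hvw
    rw [erase_insert hv, erase_insert_of_ne hvw, sg_insert_self hv, sg_insert_self h1] at h2
    have h3 : sg w σ * sg v (σ.erase w) = - (sg v σ * sg w (insert v σ)) := by
      have h4 : sg v σ * sg w σ = -(sg w (insert v σ) * sg v (σ.erase w)) := h2
      have e1 := sg_mul_self v σ
      have e2 := sg_mul_self w (insert v σ)
      calc sg w σ * sg v (σ.erase w)
          = (sg v σ * sg v σ) * (sg w (insert v σ) * sg w (insert v σ)) *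
            (sg w σ * sg v (σ.erase w)) := by rw [e1, e2]; ring
        _ = (sg v σ * sg w (insert v σ)) * (sg v σ * sg w σ) *
            (sg w (insert v σ) * sg v (σ.erase w)) := by ring
        _ = - (sg v σ * sg w (insert v σ)) * ((sg w (insert v σ) * sg w (insert v σ)) *
            (sg v (σ.erase w) * sg v (σ.erase w))) := by rw [h4]; ring
        _ = - (sg v σ * sg w (insert v σ)) := by rw [e2, sg_mul_self]; ring
    rw [h3, neg_add_cancel, zero_smul]

theorem cd_ins_of_cocycle {v : V} {x : Finset V → M} (h : cd x = 0) : cd (ins v x) = x := by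
  funext σ
  have := cd_ins v x σ
  rwa [h, ins_zero, Pi.zero_apply, add_zero] at this

/-! ### Exactness of the augmented complex -/

/-- The augmented complex of the family `F` is exact. -/
def ExAug (F : Finset V → AddSubgroup M) : Prop :=
  ∀ x : Finset V → M, (∀ σ, x σ ∈ F σ) → cd x = 0 →
    ∃ y : Finset V → M, (∀ σ, y σ ∈ F σ) ∧ cd y = x

theorem exAug_bot : ExAug (fun _ : Finset V => (⊥ : AddSubgroup M)) := by
  intro x hx _
  refine ⟨0, fun σ => zero_mem _, ?_⟩
  rw [cd_zero]
  funext σ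
  exact (AddSubgroup.mem_bot.mp (hx σ)).symm

/-- The complex is exact if one index is redundant. -/
theorem exAug_of_redundant {F : Finset V → AddSubgroup M} (v : V)
    (h : ∀ σ, v ∉ σ → F (insert v σ) ≤ F σ) : ExAug F := by
  intro x hx hc
  exact ⟨ins v x, fun σ => ins_mem fun hv => h σ hv (hx _), cd_ins_of_cocycle hc⟩

/-- Partition of unity. -/
theorem exAug_of_partition [Finite V] {A : Type*} [CommRing A] [Module A M]
    {F : Finset V → AddSubgroup M} (hA : ∀ (a : A) (σ : Finset V), ∀ x ∈ F σ, a • x ∈ F σ)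
    (s : V → A) (hs : Ideal.span (Set.range s) = ⊤)
    (hloc : ∀ (v : V) (σ : Finset V), v ∉ σ → ∀ x ∈ F (insert v σ), ∃ e : ℕ, s v ^ e • x ∈ F σ) :
    ExAug F := by
  intro x hx hc
  cases nonempty_fintype V
  have h1 : ∀ (v : V) (σ : Finset V), ∃ e : ℕ, v ∉ σ → s v ^ e • x (insert v σ) ∈ F σ := by
    intro v σ
    by_cases hv : v ∉ σ
    · obtain ⟨e, he⟩ := hloc v σ hv _ (hx _)
      exact ⟨e, fun _ => he⟩
    · exact ⟨0, fun h => absurd h hv⟩
  choose e he using h1
  let E := ∑ v : V, ∑ σ : Finset V, e v σ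
  have hE : ∀ (v : V) (σ : Finset V), v ∉ σ → s v ^ E • x (insert v σ) ∈ F σ := by
    intro v σ hv
    have h2 : e v σ ≤ E :=
      (single_le_sum (f := fun σ => e v σ) (fun _ _ => Nat.zero_le _) (mem_univ σ)).trans
        (single_le_sum (f := fun v => ∑ σ : Finset V, e v σ) (fun _ _ => Nat.zero_le _)
          (mem_univ v))
    obtain ⟨c, hc⟩ := Nat.exists_eq_add_of_le h2
    rw [hc, pow_add, mul_comm, mul_smul]
    exact hA _ _ _ (he v σ hv)
  have hs' : Ideal.span (Set.range fun v => s v ^ E) = ⊤ := by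
    have := Ideal.span_pow_eq_top (Set.range s) hs E
    rwa [← Set.range_comp] at this
  have h1m : (1 : A) ∈ Ideal.span (Set.range fun v => s v ^ E) := by rw [hs']; trivial
  rw [Ideal.span, Submodule.mem_span_range_iff_exists_fun] at h1m
  obtain ⟨b, hb⟩ := h1m
  refine ⟨∑ v : V, (b v * s v ^ E) • ins v x, fun σ => ?_, ?_⟩
  · rw [Finset.sum_apply]
    refine AddSubgroup.sum_mem _ fun v _ => ?_
    rw [Pi.smul_apply]
    unfold ins
    split
    · rw [smul_zero]; exact zero_mem _
    · next hv =>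
      rw [smul_comm, mul_smul]
      exact AddSubgroup.zsmul_mem _ (hA _ _ _ (hE v σ hv)) _
  · rw [cd_sum]
    simp only [cd_smul, cd_ins_of_cocycle hc]
    rw [← sum_smul]
    simp only [smul_eq_mul] at hb
    rw [hb, one_smul]

/-- The annihilator of the class of `x` in the cohomology of `F`, for `F` a family of
`A`-submodules. -/
def annH {A : Type*} [CommRing A] [Module A M] (F : Finset V → Submodule A M)
    (x : Finset V → M) : Ideal A where
  carrier := {a | ∃ y : Finset V → M, (∀ σ, y σ ∈ F σ) ∧ cd y = a • x}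
  zero_mem' := ⟨0, fun σ => zero_mem _, by rw [cd_zero, zero_smul]⟩
  add_mem' := by
    rintro a b ⟨y, hy, hy'⟩ ⟨z, hz, hz'⟩
    exact ⟨y + z, fun σ => add_mem (hy σ) (hz σ), by rw [cd_add, hy', hz', add_smul]⟩
  smul_mem' := by
    rintro c a ⟨y, hy, hy'⟩
    exact ⟨c • y, fun σ => Submodule.smul_mem _ c (hy σ), by rw [cd_smul, hy', smul_eq_mul, mul_smul]⟩

theorem mem_annH {A : Type*} [CommRing A] [Module A M] {F : Finset V → Submodule A M}
    {x : Finset V → M} {a : A} :
    a ∈ annH F x ↔ ∃ y : Finset V → M, (∀ σ, y σ ∈ F σ) ∧ cd y = a • x := Iff.rfl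

end Cd

/-! ## The total differential of double complexes -/

section Dd

variable {V U : Type*} [LinearOrder V] [LinearOrder U] {M N : Type*} [AddCommGroup M]
  [AddCommGroup N]

theorem dd_eq (x : Finset V → Finset U → M) (σ : Finset V) (τ : Finset U) :
    dd x σ τ = cd (fun s => x s τ) σ + ((-1 : ℤ) ^ σ.card) • cd (x σ) τ := rfl

theorem cd_apply2 (x : Finset V → Finset U → M) (σ : Finset V) (τ : Finset U) :
    cd (fun s => x s τ) σ = (cd x σ) τ :=
  cd_map (Pi.evalAddMonoidHom (fun _ : Finset U => M) τ) x σ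

theorem dd_map {F : Type*} [FunLike F M N] [AddMonoidHomClass F M N] (f : F)
    (x : Finset V → Finset U → M) (σ : Finset V) (τ : Finset U) :
    dd (fun s t => f (x s t)) σ τ = f (dd x σ τ) := by
  rw [dd_eq, dd_eq, map_add, map_zsmul, cd_map f (fun s => x s τ), cd_map f (x σ)]

theorem dd_add (x y : Finset V → Finset U → M) : dd (x + y) = dd x + dd y := by
  funext σ τ
  show dd (x + y) σ τ = dd x σ τ + dd y σ τ
  rw [dd_eq, dd_eq, dd_eq]
  have h1 : (fun s => (x + y) s τ) = (fun s => x s τ) + (fun s => y s τ) := rfl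
  have h2 : (x + y) σ = x σ + y σ := rfl
  rw [h1, h2, cd_add, cd_add, Pi.add_apply, Pi.add_apply, smul_add]
  abel

theorem dd_zero : dd (0 : Finset V → Finset U → M) = 0 := by
  funext σ τ
  rw [dd_eq]
  have h1 : (fun s => (0 : Finset V → Finset U → M) s τ) = 0 := rfl
  have h2 : (0 : Finset V → Finset U → M) σ = 0 := rfl
  rw [h1, h2, cd_zero, cd_zero, Pi.zero_apply, Pi.zero_apply, smul_zero, add_zero]

/-- `dd` as an additive map. -/
def ddH : (Finset V → Finset U → M) →+ (Finset V → Finset U → M) where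
  toFun := dd
  map_zero' := dd_zero
  map_add' := dd_add

theorem dd_neg (x : Finset V → Finset U → M) : dd (-x) = - dd x :=
  map_neg (ddH (V := V) (U := U) (M := M)) x

theorem dd_sub (x y : Finset V → Finset U → M) : dd (x - y) = dd x - dd y :=
  map_sub (ddH (V := V) (U := U) (M := M)) x y

theorem dd_sum {ι : Type*} (s : Finset ι) (x : ι → Finset V → Finset U → M) :
    dd (∑ i ∈ s, x i) = ∑ i ∈ s, dd (x i) := map_sum (ddH (V := V) (U := U) (M := M)) x s

theorem dd_zsmul (c : ℤ) (x : Finset V → Finset U → M) : dd (c • x) = c • dd x :=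
  map_zsmul (ddH (V := V) (U := U) (M := M)) c x

theorem dd_smul {R : Type*} [Monoid R] [DistribMulAction R M] (c : R)
    (x : Finset V → Finset U → M) : dd (c • x) = c • dd x := by
  funext σ τ
  exact dd_map (DistribSMul.toAddMonoidHom M c) x σ τ

theorem dd_mul {R : Type*} [Ring R] (c : R) (x : Finset V → Finset U → R) (σ : Finset V)
    (τ : Finset U) : dd (fun s t => c * x s t) σ τ = c * dd x σ τ :=
  dd_map (AddMonoidHom.mulLeft c) x σ τ

/-- `dd` as a linear map. -/
def ddL (R : Type*) [Ring R] [Module R M] :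
    (Finset V → Finset U → M) →ₗ[R] (Finset V → Finset U → M) where
  toFun := dd
  map_add' := dd_add
  map_smul' c x := dd_smul c x

/-- `dd ∘ dd = 0` -/
theorem dd_dd (x : Finset V → Finset U → M) : dd (dd x) = 0 := by
  funext σ τ
  show dd (dd x) σ τ = 0
  have h1 : (fun s => dd x s τ) = cd (fun s => x s τ) +
      (fun s => ((-1 : ℤ) ^ s.card) • (fun s => cd (x s) τ) s) := by
    funext s; rfl
  have h2 : dd x σ = (fun t => (cd x σ) t) + ((-1 : ℤ) ^ σ.card) • cd (x σ) := by
    funext t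
    rw [dd_eq, cd_apply2]; rfl
  rw [dd_eq, h1, h2, cd_add, cd_add, Pi.add_apply, Pi.add_apply, cd_cd_apply, zero_add, cd_zsmul,
    cd_cd, smul_zero, Pi.zero_apply, add_zero]
  have h3 : cd (fun t => (cd x σ) t) τ = cd (fun s => cd (x s) τ) σ := by
    have := cd_map ((Pi.evalAddMonoidHom (fun _ : Finset U => M) τ).comp (cdH (V := U) (M := M))) x σ
    exact this.symm
  rw [h3, cd_eq, cd_eq, smul_sum, ← sum_add_distrib]
  refine sum_eq_zero fun v hv => ?_
  have h4 : 0 < σ.card := card_pos.mpr ⟨v, hv⟩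
  obtain ⟨c, hc⟩ : ∃ c, σ.card = c + 1 := ⟨_, (Nat.succ_pred_eq_of_pos h4).symm⟩
  rw [card_erase_of_mem hv, hc, Nat.add_sub_cancel, smul_smul, smul_smul, ← add_smul, pow_succ]
  have : sg v σ * (-1) ^ c + (-1) ^ c * -1 * sg v σ = 0 := by ring
  rw [this, zero_smul]

theorem dd_dd_apply (x : Finset V → Finset U → M) (σ : Finset V) (τ : Finset U) :
    dd (dd x) σ τ = 0 := by
  rw [dd_dd]; rfl

theorem dd_empty_left (x : Finset V → Finset U → M) (τ : Finset U) : dd x ∅ τ = cd (x ∅) τ := by
  rw [dd_eq, cd_empty, zero_add, card_empty, pow_zero, one_smul]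

theorem dd_empty_right (x : Finset V → Finset U → M) (σ : Finset V) :
    dd x σ ∅ = cd (fun s => x s ∅) σ := by
  rw [dd_eq, cd_empty, smul_zero, add_zero]

theorem dd_empty_empty (x : Finset V → Finset U → M) : dd x ∅ ∅ = 0 := by
  rw [dd_empty_right, cd_empty]

theorem dd_mem {F : Finset V → Finset U → AddSubgroup M} {x : Finset V → Finset U → M}
    (h1 : ∀ σ τ, ∀ v ∈ σ, F (σ.erase v) τ ≤ F σ τ) (h2 : ∀ σ τ, ∀ u ∈ τ, F σ (τ.erase u) ≤ F σ τ)
    (hx : ∀ σ τ, x σ τ ∈ F σ τ) (σ : Finset V) (τ : Finset U) : dd x σ τ ∈ F σ τ := by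
  rw [dd_eq]
  refine add_mem ?_ (AddSubgroup.zsmul_mem _ ?_ _)
  · exact cd_mem' fun v hv => h1 σ τ v hv (hx _ _)
  · exact cd_mem' fun u hu => h2 σ τ u hu (hx _ _)

/-! ### The card grading -/

/-- The component supported on pairs with `σ.card + τ.card = g`. -/
def drd (g : ℕ) (x : Finset V → Finset U → M) (σ : Finset V) (τ : Finset U) : M :=
  if σ.card + τ.card = g then x σ τ else 0

theorem drd_of_eq {g : ℕ} (x : Finset V → Finset U → M) {σ : Finset V} {τ : Finset U}
    (h : σ.card + τ.card = g) : drd g x σ τ = x σ τ := if_pos h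

theorem drd_of_ne {g : ℕ} (x : Finset V → Finset U → M) {σ : Finset V} {τ : Finset U}
    (h : σ.card + τ.card ≠ g) : drd g x σ τ = 0 := if_neg h

theorem drd_self {g : ℕ} {x : Finset V → Finset U → M}
    (h : ∀ σ τ, σ.card + τ.card ≠ g → x σ τ = 0) : drd g x = x := by
  funext σ τ
  by_cases hs : σ.card + τ.card = g
  · exact drd_of_eq x hs
  · rw [drd_of_ne x hs, h σ τ hs]

theorem drd_mem {F : Finset V → Finset U → AddSubgroup M} {x : Finset V → Finset U → M} {g : ℕ}
    {σ : Finset V} {τ : Finset U} (hx : x σ τ ∈ F σ τ) : drd g x σ τ ∈ F σ τ := by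
  unfold drd
  split
  · exact hx
  · exact zero_mem _

theorem dd_drd (g : ℕ) (x : Finset V → Finset U → M) : dd (drd g x) = drd (g + 1) (dd x) := by
  funext σ τ
  by_cases h : σ.card + τ.card = g + 1
  · rw [drd_of_eq _ h, dd_eq, dd_eq]
    congr 1
    · refine cd_congr fun v hv => ?_
      have : 0 < σ.card := card_pos.mpr ⟨v, hv⟩
      exact drd_of_eq x (by rw [card_erase_of_mem hv]; omega)
    · congr 1
      refine cd_congr fun u hu => ?_
      have : 0 < τ.card := card_pos.mpr ⟨u, hu⟩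
      exact drd_of_eq x (by rw [card_erase_of_mem hu]; omega)
  · rw [drd_of_ne _ h, dd_eq, cd_eq, cd_eq, sum_eq_zero, sum_eq_zero, smul_zero, add_zero]
    · intro u hu
      have : 0 < τ.card := card_pos.mpr ⟨u, hu⟩
      rw [drd_of_ne x (by rw [card_erase_of_mem hu]; omega), smul_zero]
    · intro v hv
      have : 0 < σ.card := card_pos.mpr ⟨v, hv⟩
      rw [drd_of_ne x (by rw [card_erase_of_mem hv]; omega), smul_zero]

theorem dd_card {g : ℕ} {x : Finset V → Finset U → M}
    (h : ∀ σ τ, σ.card + τ.card ≠ g → x σ τ = 0) (σ : Finset V) (τ : Finset U)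
    (hs : σ.card + τ.card ≠ g + 1) : dd x σ τ = 0 := by
  have := congrFun (congrFun (dd_drd g x) σ) τ
  rw [drd_self h, drd_of_ne _ hs] at this
  exact this

theorem dd_drd_of {g : ℕ} {x y : Finset V → Finset U → M}
    (hx : ∀ σ τ, σ.card + τ.card ≠ g + 1 → x σ τ = 0) (h : dd y = x) : dd (drd g y) = x := by
  rw [dd_drd, h, drd_self hx]

theorem eq_zero_of_card_zero2 {x y : Finset V → Finset U → M}
    (hx : ∀ σ τ, σ.card + τ.card ≠ 0 → x σ τ = 0) (h : dd y = x) : x = 0 := by
  funext σ τ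
  by_cases hs : σ.card + τ.card = 0
  · have h1 : σ = ∅ := card_eq_zero.mp (by omega)
    have h2 : τ = ∅ := card_eq_zero.mp (by omega)
    rw [← h, h1, h2, dd_empty_empty]; rfl
  · exact hx σ τ hs

theorem sum_drd [Fintype V] [Fintype U] (x : Finset V → Finset U → M) :
    ∑ g ∈ range (Fintype.card V + Fintype.card U + 1), drd g x = x := by
  funext σ τ
  rw [Finset.sum_apply, Finset.sum_apply]
  rw [sum_eq_single (σ.card + τ.card)]
  · exact drd_of_eq x rfl
  · intro j _ hj
    exact drd_of_ne x (Ne.symm hj)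
  · intro h
    exact absurd (mem_range.mpr (Nat.lt_succ_of_le
      (Nat.add_le_add (card_le_univ σ) (card_le_univ τ)))) h

/-! ### Transposition -/

/-- Transposition with signs. -/
def tr (x : Finset V → Finset U → M) (τ : Finset U) (σ : Finset V) : M :=
  ((-1 : ℤ) ^ (σ.card * τ.card)) • x σ τ

theorem tr_tr (x : Finset V → Finset U → M) : tr (tr x) = x := by
  funext σ τ
  unfold tr
  rw [smul_smul, mul_comm τ.card σ.card, ← pow_add, ← two_mul, pow_mul]
  simp

theorem tr_zero : tr (0 : Finset V → Finset U → M) = 0 := by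
  funext τ σ
  show ((-1 : ℤ) ^ (σ.card * τ.card)) • (0 : M) = 0
  exact smul_zero _

theorem dd_tr (x : Finset V → Finset U → M) : dd (tr x) = tr (dd x) := by
  funext τ σ
  show dd (tr x) τ σ = ((-1 : ℤ) ^ (σ.card * τ.card)) • dd x σ τ
  rw [dd_eq, dd_eq, cd_eq, cd_eq, cd_eq, cd_eq, smul_add, smul_smul, smul_sum, smul_sum, smul_sum,
    add_comm]
  congr 1
  · refine sum_congr rfl fun v hv => ?_
    have h4 : 0 < σ.card := card_pos.mpr ⟨v, hv⟩
    obtain ⟨c, hc⟩ : ∃ c, σ.card = c + 1 := ⟨_, (Nat.succ_pred_eq_of_pos h4).symm⟩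
    unfold tr
    rw [card_erase_of_mem hv, hc, Nat.add_sub_cancel, smul_smul, smul_smul, smul_smul]
    congr 1
    rw [add_mul, one_mul, pow_add]
    ring
  · refine sum_congr rfl fun u hu => ?_
    have h4 : 0 < τ.card := card_pos.mpr ⟨u, hu⟩
    obtain ⟨c, hc⟩ : ∃ c, τ.card = c + 1 := ⟨_, (Nat.succ_pred_eq_of_pos h4).symm⟩
    unfold tr
    rw [card_erase_of_mem hu, hc, Nat.add_sub_cancel, smul_smul, smul_smul]
    congr 1
    rw [mul_add, mul_one, pow_add]
    have : (-1 : ℤ) ^ σ.card * (-1) ^ σ.card = 1 := by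
      rw [← pow_add, ← two_mul, pow_mul]; simp
    linear_combination (- sg u τ * (-1) ^ (σ.card * c)) * this

/-! ### Exactness of the total complex -/

/-- The (fully augmented) double complex of the family `F` is exact. Use `F ∅ τ = ⊥` etc. for
non-augmented complexes. -/
def ExTot (F : Finset V → Finset U → AddSubgroup M) : Prop :=
  ∀ x : Finset V → Finset U → M, (∀ σ τ, x σ τ ∈ F σ τ) → dd x = 0 →
    ∃ y : Finset V → Finset U → M, (∀ σ τ, y σ τ ∈ F σ τ) ∧ dd y = x

/-- If all complexes `F σ` (`τ` varies) are exact, the total complex is exact. -/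
theorem exTot_of_snd [Finite V] {F : Finset V → Finset U → AddSubgroup M}
    (h1 : ∀ σ τ, ∀ v ∈ σ, F (σ.erase v) τ ≤ F σ τ) (h2 : ∀ σ τ, ∀ u ∈ τ, F σ (τ.erase u) ≤ F σ τ)
    (hex : ∀ σ, ExAug (F σ)) : ExTot F := by
  intro x hx hc
  cases nonempty_fintype V
  have key : ∀ j : ℕ, ∃ y : Finset V → Finset U → M, (∀ σ τ, y σ τ ∈ F σ τ) ∧
      ∀ σ τ, σ.card < j → (x - dd y) σ τ = 0 := by
    intro j
    induction j with
    | zero => exact ⟨0, fun σ τ => zero_mem _, fun σ τ h => absurd h (Nat.not_lt_zero _)⟩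
    | succ j ih =>
      obtain ⟨y, hy, hyx⟩ := ih
      set w := x - dd y with hw
      have hwF : ∀ σ τ, w σ τ ∈ F σ τ := fun σ τ => sub_mem (hx σ τ) (dd_mem h1 h2 hy σ τ)
      have hwc : dd w = 0 := by rw [hw, dd_sub, hc, dd_dd, sub_zero]
      have hz : ∀ σ : Finset V, ∃ z : Finset U → M, (∀ τ, z τ ∈ F σ τ) ∧
          (σ.card = j → ((-1 : ℤ) ^ σ.card) • cd z = w σ) ∧ (σ.card ≠ j → z = 0) := by
        intro σ
        by_cases hσ : σ.card = j
        · have hcw : cd (w σ) = 0 := by
            funext τ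
            have h3 := congrFun (congrFun hwc σ) τ
            rw [dd_eq] at h3
            have h4 : cd (fun s => w s τ) σ = 0 := by
              rw [cd_eq]
              refine sum_eq_zero fun v hv => ?_
              have h5 : 0 < σ.card := card_pos.mpr ⟨v, hv⟩
              rw [hyx _ _ (by rw [card_erase_of_mem hv]; omega), smul_zero]
            rw [h4, zero_add] at h3
            have h6 : ((-1 : ℤ) ^ σ.card) • (((-1 : ℤ) ^ σ.card) • cd (w σ) τ) = 0 := by
              rw [h3]; exact smul_zero _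
            rw [smul_smul, ← pow_add, ← two_mul, pow_mul] at h6
            simpa using h6
          obtain ⟨z, hz, hz'⟩ := hex σ (w σ) (hwF σ) hcw
          refine ⟨((-1 : ℤ) ^ σ.card) • z, fun τ => AddSubgroup.zsmul_mem _ (hz τ) _, fun _ => ?_,
            fun h => absurd hσ h⟩
          rw [cd_zsmul, hz', smul_smul, ← pow_add, ← two_mul, pow_mul]
          simp
        · exact ⟨0, fun τ => zero_mem _, fun h => absurd h hσ, fun _ => rfl⟩
      choose z hzF hz1 hz2 using hz
      refine ⟨y + z, fun σ τ => add_mem (hy σ τ) (hzF σ τ), fun σ τ hσ => ?_⟩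
      have e1 : (x - dd (y + z)) σ τ = w σ τ - dd z σ τ := by
        rw [dd_add, ← sub_sub, ← hw]; rfl
      rw [e1, dd_eq]
      have e2 : cd (fun s => z s τ) σ = 0 := by
        rw [cd_eq]
        refine sum_eq_zero fun v hv => ?_
        have h5 : 0 < σ.card := card_pos.mpr ⟨v, hv⟩
        rw [hz2 (σ.erase v) (by rw [card_erase_of_mem hv]; omega)]
        exact smul_zero _
      rw [e2, zero_add]
      by_cases hσ' : σ.card = j
      · have := congrFun (hz1 σ hσ') τ
        rw [← this]
        exact sub_self _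
      · rw [hyx σ τ (by omega), hz2 σ hσ', cd_zero, Pi.zero_apply, smul_zero, sub_zero]
  obtain ⟨y, hy, hyx⟩ := key (Fintype.card V + 1)
  refine ⟨y, hy, ?_⟩
  funext σ τ
  have := hyx σ τ (Nat.lt_succ_of_le (card_le_univ σ))
  exact (sub_eq_zero.mp this).symm

/-- If all complexes `σ ↦ F σ τ` are exact, the total complex is exact. -/
theorem exTot_of_fst [Finite U] {F : Finset V → Finset U → AddSubgroup M}
    (h1 : ∀ σ τ, ∀ v ∈ σ, F (σ.erase v) τ ≤ F σ τ) (h2 : ∀ σ τ, ∀ u ∈ τ, F σ (τ.erase u) ≤ F σ τ)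
    (hex : ∀ τ, ExAug (fun σ => F σ τ)) : ExTot F := by
  intro x hx hc
  have h3 : ExTot (fun (τ : Finset U) (σ : Finset V) => F σ τ) :=
    exTot_of_snd (fun τ σ u hu => h2 σ τ u hu) (fun τ σ v hv => h1 σ τ v hv) hex
  obtain ⟨y, hy, hy'⟩ := h3 (tr x) (fun τ σ => AddSubgroup.zsmul_mem _ (hx σ τ) _)
    (by rw [dd_tr, hc, tr_zero])
  refine ⟨tr y, fun σ τ => AddSubgroup.zsmul_mem _ (hy τ σ) _, ?_⟩
  rw [dd_tr, hy', tr_tr]

end Dd

end Pool.Agent.DBX.Q
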