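import Pool.Agent.DBX.Cech

set_option autoImplicit false
set_option linter.unusedSectionVars false

/-! # MP_2c751f_ag, squad DBX: lexicographic sums of index sets and change of covering -/

namespace Pool.Agent.DBX.Q

open Finset

section Pack

variable {U W : Type*} [LinearOrder U] [LinearOrder W] {M : Type*} [AddCommGroup M]

/-- left embedding -/
def eL (U W : Type*) : U ↪ U ⊕ₗ W where
  toFun u := toLex (Sum.inl u)
  inj' _ _ h := Sum.inl_injective (toLex.injective h)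

/-- right embedding -/
def eR (U W : Type*) : W ↪ U ⊕ₗ W where
  toFun w := toLex (Sum.inr w)
  inj' _ _ h := Sum.inr_injective (toLex.injective h)

theorem eL_ne_eR (u : U) (w : W) : eL U W u ≠ eR U W w := by
  intro h
  have : (Sum.inl u : U ⊕ W) = Sum.inr w := toLex.injective h
  cases this

theorem eL_lt {u v : U} : eL U W u < eL U W v ↔ u < v := by
  show (toLex (Sum.inl u) : U ⊕ₗ W) < toLex (Sum.inl v) ↔ _
  rw [Sum.Lex.toLex_lt_toLex, Sum.lex_inl_inl]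

theorem eR_lt {u v : W} : eR U W u < eR U W v ↔ u < v := by
  show (toLex (Sum.inr u) : U ⊕ₗ W) < toLex (Sum.inr v) ↔ _
  rw [Sum.Lex.toLex_lt_toLex, Sum.lex_inr_inr]

theorem eL_lt_eR (u : U) (w : W) : eL U W u < eR U W w := by
  show (toLex (Sum.inl u) : U ⊕ₗ W) < toLex (Sum.inr w)
  rw [Sum.Lex.toLex_lt_toLex]
  exact Sum.Lex.sep _ _

/-- The subset `τ ⊔ ω` of the lexicographic sum. -/
def pk (τ : Finset U) (ω : Finset W) : Finset (U ⊕ₗ W) := τ.map (eL U W) ∪ ω.map (eR U W)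

/-- left part -/
noncomputable def lf (ρ : Finset (U ⊕ₗ W)) : Finset U :=
  ρ.preimage (eL U W) ((eL U W).injective.injOn)

/-- right part -/
noncomputable def rt (ρ : Finset (U ⊕ₗ W)) : Finset W :=
  ρ.preimage (eR U W) ((eR U W).injective.injOn)

theorem inl_mem_pk {τ : Finset U} {ω : Finset W} {u : U} : eL U W u ∈ pk τ ω ↔ u ∈ τ := by
  rw [pk, mem_union, mem_map, mem_map]
  constructor
  · rintro (⟨a, ha, h⟩ | ⟨a, ha, h⟩)
    · rwa [← (eL U W).injective h]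
    · exact absurd h.symm (eL_ne_eR u a)
  · intro h
    exact Or.inl ⟨u, h, rfl⟩

theorem inr_mem_pk {τ : Finset U} {ω : Finset W} {w : W} : eR U W w ∈ pk τ ω ↔ w ∈ ω := by
  rw [pk, mem_union, mem_map, mem_map]
  constructor
  · rintro (⟨a, ha, h⟩ | ⟨a, ha, h⟩)
    · exact absurd h (eL_ne_eR a w)
    · rwa [← (eR U W).injective h]
  · intro h
    exact Or.inr ⟨w, h, rfl⟩

theorem mem_lf {ρ : Finset (U ⊕ₗ W)} {u : U} : u ∈ lf ρ ↔ eL U W u ∈ ρ := by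
  rw [lf, mem_preimage]

theorem mem_rt {ρ : Finset (U ⊕ₗ W)} {w : W} : w ∈ rt ρ ↔ eR U W w ∈ ρ := by
  rw [rt, mem_preimage]

theorem ext_lex {ρ ρ' : Finset (U ⊕ₗ W)} (h1 : ∀ u, eL U W u ∈ ρ ↔ eL U W u ∈ ρ')
    (h2 : ∀ w, eR U W w ∈ ρ ↔ eR U W w ∈ ρ') : ρ = ρ' := by
  ext r
  rcases r with u | w
  · exact h1 u
  · exact h2 w

theorem pk_lf_rt (ρ : Finset (U ⊕ₗ W)) : pk (lf ρ) (rt ρ) = ρ :=
  ext_lex (fun _ => by rw [inl_mem_pk, mem_lf]) (fun _ => by rw [inr_mem_pk, mem_rt])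

theorem lf_pk (τ : Finset U) (ω : Finset W) : lf (pk τ ω) = τ := by
  ext u
  rw [mem_lf, inl_mem_pk]

theorem rt_pk (τ : Finset U) (ω : Finset W) : rt (pk τ ω) = ω := by
  ext u
  rw [mem_rt, inr_mem_pk]

theorem pk_erase_inl (τ : Finset U) (ω : Finset W) (u : U) :
    (pk τ ω).erase (eL U W u) = pk (τ.erase u) ω :=
  ext_lex (fun v => by
    rw [mem_erase, inl_mem_pk, inl_mem_pk, mem_erase, ne_eq, (eL U W).injective.eq_iff])
    (fun w => by
      rw [mem_erase, inr_mem_pk, inr_mem_pk]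
      exact ⟨fun h => h.2, fun h => ⟨(eL_ne_eR u w).symm, h⟩⟩)

theorem pk_erase_inr (τ : Finset U) (ω : Finset W) (w : W) :
    (pk τ ω).erase (eR U W w) = pk τ (ω.erase w) :=
  ext_lex (fun v => by
    rw [mem_erase, inl_mem_pk, inl_mem_pk]
    exact ⟨fun h => h.2, fun h => ⟨eL_ne_eR v w, h⟩⟩)
    (fun v => by
      rw [mem_erase, inr_mem_pk, inr_mem_pk, mem_erase, ne_eq, (eR U W).injective.eq_iff])

theorem disj_pk (τ : Finset U) (ω : Finset W) : Disjoint (τ.map (eL U W)) (ω.map (eR U W)) := by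
  rw [disjoint_left]
  intro r h1 h2
  rw [mem_map] at h1 h2
  obtain ⟨u, _, hu⟩ := h1
  obtain ⟨v, _, hv⟩ := h2
  exact eL_ne_eR u v (hu.trans hv.symm)

theorem card_pk (τ : Finset U) (ω : Finset W) : (pk τ ω).card = τ.card + ω.card := by
  rw [pk, card_union_of_disjoint (disj_pk τ ω), card_map, card_map]

theorem sg_pk_inl (τ : Finset U) (ω : Finset W) (u : U) : sg (eL U W u) (pk τ ω) = sg u τ := by
  unfold sg
  have : (pk τ ω).filter (fun r => r < eL U W u) = pk (τ.filter (fun v => v < u)) ∅ := by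
    refine ext_lex (fun v => ?_) (fun w => ?_)
    · rw [mem_filter, inl_mem_pk, inl_mem_pk, mem_filter, eL_lt]
    · rw [mem_filter, inr_mem_pk, inr_mem_pk]
      exact ⟨fun h => absurd h.2 (not_lt.mpr (eL_lt_eR u w).le), fun h => absurd h (notMem_empty w)⟩
  rw [this, card_pk, card_empty, add_zero]

theorem sg_pk_inr (τ : Finset U) (ω : Finset W) (w : W) :
    sg (eR U W w) (pk τ ω) = (-1) ^ τ.card * sg w ω := by
  unfold sg
  rw [← pow_add]
  have : (pk τ ω).filter (fun r => r < eR U W w) = pk τ (ω.filter (fun v => v < w)) := by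
    refine ext_lex (fun v => ?_) (fun w' => ?_)
    · rw [mem_filter, inl_mem_pk, inl_mem_pk]
      exact ⟨fun h => h.1, fun h => ⟨h, eL_lt_eR v w⟩⟩
    · rw [mem_filter, inr_mem_pk, inr_mem_pk, mem_filter, eR_lt]
  rw [this, card_pk]

/-- `cd` on a lexicographic sum is the total differential. -/
theorem cd_pk (y : Finset (U ⊕ₗ W) → M) (τ : Finset U) (ω : Finset W) :
    cd y (pk τ ω) = dd (fun t w => y (pk t w)) τ ω := by
  have h0 : cd y (pk τ ω) = ∑ r ∈ τ.map (eL U W) ∪ ω.map (eR U W),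
      sg r (pk τ ω) • y ((pk τ ω).erase r) := rfl
  rw [h0, sum_union (disj_pk τ ω), sum_map, sum_map, dd_eq, cd_eq, cd_eq]
  congr 1
  · refine sum_congr rfl fun u _ => ?_
    rw [sg_pk_inl, pk_erase_inl]
  · rw [smul_sum]
    refine sum_congr rfl fun w _ => ?_
    rw [sg_pk_inr, pk_erase_inr, smul_smul]

theorem cd_pack (x : Finset U → Finset W → M) (ρ : Finset (U ⊕ₗ W)) :
    cd (fun r => x (lf r) (rt r)) ρ = dd x (lf ρ) (rt ρ) := by
  conv_lhs => rw [← pk_lf_rt ρ]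
  rw [cd_pk]
  simp only [lf_pk, rt_pk]

/-- Exactness of the total complex as exactness of the complex of the lexicographic sum. -/
theorem exAug_pack {F : Finset U → Finset W → AddSubgroup M} (h : ExTot F) :
    ExAug (fun ρ : Finset (U ⊕ₗ W) => F (lf ρ) (rt ρ)) := by
  intro x hx hc
  obtain ⟨y, hy, hyx⟩ := h (fun t w => x (pk t w))
    (fun t w => by simpa only [lf_pk, rt_pk] using hx (pk t w)) (by
      funext t w
      rw [← cd_pk, hc]; rfl)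
  refine ⟨fun ρ => y (lf ρ) (rt ρ), fun ρ => hy _ _, ?_⟩
  funext ρ
  rw [cd_pack, hyx]
  show x (pk (lf ρ) (rt ρ)) = x ρ
  rw [pk_lf_rt]

end Pack

/-! ## Two abstract lemmas -/

section Abs

variable {C : Type*} [AddCommGroup C]

/-- From the quotient `K / K₂` to the subcomplex `K₂`. -/
theorem surj_sub (D : C →+ C) (hD : ∀ x, D (D x) = 0) {K K2 K' K2' : AddSubgroup C}
    (hex : ∀ x ∈ K, D x = 0 → ∃ y ∈ K, D y = x) (hK2 : K2 ≤ K)
    (h1 : ∀ x ∈ K, D x ∈ K2 → ∃ x' ∈ K', D x' ∈ K2' ∧ ∃ u ∈ K, ∃ y ∈ K2, x = x' + D u + y) :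
    ∀ z ∈ K2, D z = 0 → ∃ z' ∈ K2', D z' = 0 ∧ ∃ y ∈ K2, z = z' + D y := by
  intro z hz hz0
  obtain ⟨x, hx, hxz⟩ := hex z (hK2 hz) hz0
  obtain ⟨x', _, hx'2, u, _, y, hy, hxx⟩ := h1 x hx (by rw [hxz]; exact hz)
  refine ⟨D x', hx'2, hD x', y, hy, ?_⟩
  rw [← hxz, hxx, map_add, map_add, hD, add_zero]

/-- From the subcomplex `K₂` to the quotient `K / K₂`. -/
theorem surj_quot (D : C →+ C) (hD : ∀ x, D (D x) = 0) {K K2 K' K2' : AddSubgroup C}
    (hex : ∀ x ∈ K, D x = 0 → ∃ y ∈ K, D y = x) (hex' : ∀ x ∈ K', D x = 0 → ∃ y ∈ K', D y = x)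
    (hK2 : K2 ≤ K) (hK2' : K2' ≤ K') (hK' : K' ≤ K)
    (h2 : ∀ z ∈ K2, D z = 0 → ∃ z' ∈ K2', D z' = 0 ∧ ∃ y ∈ K2, z = z' + D y) :
    ∀ x ∈ K, D x ∈ K2 → ∃ x' ∈ K', D x' ∈ K2' ∧ ∃ u ∈ K, ∃ y ∈ K2, x = x' + D u + y := by
  intro x hx hDx
  obtain ⟨z', hz', hz'0, y, hy, hzz⟩ := h2 (D x) hDx (hD x)
  obtain ⟨x', hx', hx'z⟩ := hex' z' (hK2' hz') hz'0
  obtain ⟨u, hu, hDu⟩ := hex (x - y - x') (sub_mem (sub_mem hx (hK2 hy)) (hK' hx'))
    (by rw [map_sub, map_sub, hx'z, hzz]; abel)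
  exact ⟨x', hx', by rw [hx'z]; exact hz', u, hu, y, hy, by rw [hDu]; abel⟩

end Abs

/-! ## Change of covering -/

section Cover

variable {V U W : Type*} [LinearOrder V] [LinearOrder U] [LinearOrder W] [Finite V] [Finite U]
  [Finite W] {M : Type*} [AddCommGroup M]

/-- The functions with values in a family of subgroups. -/
def Kf (F : Finset V → Finset (U ⊕ₗ W) → AddSubgroup M) :
    AddSubgroup (Finset V → Finset (U ⊕ₗ W) → M) where
  carrier := {x | ∀ σ ρ, x σ ρ ∈ F σ ρ}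
  zero_mem' := fun _ _ => zero_mem _
  add_mem' := fun ha hb σ ρ => add_mem (ha σ ρ) (hb σ ρ)
  neg_mem' := fun ha σ ρ => neg_mem (ha σ ρ)

instance : Finite (U ⊕ₗ W) := inferInstanceAs (Finite (U ⊕ W))

theorem mem_Kf {F : Finset V → Finset (U ⊕ₗ W) → AddSubgroup M}
    {x : Finset V → Finset (U ⊕ₗ W) → M} : x ∈ Kf F ↔ ∀ σ ρ, x σ ρ ∈ F σ ρ := Iff.rfl

open Classical in
/-- The family `G` restricted to the triples satisfying `P`. -/
noncomputable def Fam (G : Finset V → Finset U → Finset W → AddSubgroup M)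
    (P : Finset V → Finset U → Finset W → Prop)
    (σ : Finset V) (ρ : Finset (U ⊕ₗ W)) : AddSubgroup M :=
  if P σ (lf ρ) (rt ρ) then G σ (lf ρ) (rt ρ) else ⊥

theorem Fam_pos {G : Finset V → Finset U → Finset W → AddSubgroup M}
    {P : Finset V → Finset U → Finset W → Prop} {σ : Finset V} {ρ : Finset (U ⊕ₗ W)}
    (h : P σ (lf ρ) (rt ρ)) : Fam G P σ ρ = G σ (lf ρ) (rt ρ) := if_pos h

theorem Fam_neg {G : Finset V → Finset U → Finset W → AddSubgroup M}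
    {P : Finset V → Finset U → Finset W → Prop} {σ : Finset V} {ρ : Finset (U ⊕ₗ W)}
    (h : ¬ P σ (lf ρ) (rt ρ)) : Fam G P σ ρ = ⊥ := if_neg h

/-- The hypotheses on the family of a change of covering: it is monotone, the augmented complexes
in `ω` are exact for `σ`, `τ` nonempty, those in `σ` for `τ`, `ω` nonempty, those in `τ` for
`σ = ∅`, `ω` nonempty. -/
structure CoverFam (G : Finset V → Finset U → Finset W → AddSubgroup M) : Prop where
  m1 : ∀ σ σ' τ ω, σ ⊆ σ' → G σ τ ω ≤ G σ' τ ω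
  m2 : ∀ σ τ τ' ω, τ ⊆ τ' → G σ τ ω ≤ G σ τ' ω
  m3 : ∀ σ τ ω ω', ω ⊆ ω' → G σ τ ω ≤ G σ τ ω'
  e1 : ∀ σ τ, σ.Nonempty → τ.Nonempty → ExAug (G σ τ)
  e2 : ∀ τ ω, τ.Nonempty → ω.Nonempty → ExAug (fun σ => G σ τ ω)
  e3 : ∀ ω, ω.Nonempty → ExAug (fun τ => G ∅ τ ω)

theorem lf_mono {ρ ρ' : Finset (U ⊕ₗ W)} (h : ρ ⊆ ρ') : lf ρ ⊆ lf ρ' := by
  intro u hu
  rw [mem_lf] at hu ⊢
  exact h hu

theorem rt_mono {ρ ρ' : Finset (U ⊕ₗ W)} (h : ρ ⊆ ρ') : rt ρ ⊆ rt ρ' := by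
  intro u hu
  rw [mem_rt] at hu ⊢
  exact h hu

variable {G G' : Finset V → Finset U → Finset W → AddSubgroup M}

theorem Fam_mono1 (hG : CoverFam G) {P : Finset V → Finset U → Finset W → Prop}
    (hP : ∀ σ σ' τ ω, σ ⊆ σ' → P σ τ ω → P σ' τ ω) (σ : Finset V) (ρ : Finset (U ⊕ₗ W)) :
    ∀ v ∈ σ, Fam G P (σ.erase v) ρ ≤ Fam G P σ ρ := by
  intro v _
  by_cases h : P (σ.erase v) (lf ρ) (rt ρ)
  · rw [Fam_pos h, Fam_pos (hP _ _ _ _ (erase_subset v σ) h)]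
    exact hG.m1 _ _ _ _ (erase_subset v σ)
  · rw [Fam_neg h]; exact bot_le

theorem Fam_mono2 (hG : CoverFam G) {P : Finset V → Finset U → Finset W → Prop}
    (hP : ∀ σ τ τ' ω ω', τ ⊆ τ' → ω ⊆ ω' → P σ τ ω → P σ τ' ω')
    (σ : Finset V) (ρ : Finset (U ⊕ₗ W)) :
    ∀ r ∈ ρ, Fam G P σ (ρ.erase r) ≤ Fam G P σ ρ := by
  intro r _
  by_cases h : P σ (lf (ρ.erase r)) (rt (ρ.erase r))
  · rw [Fam_pos h, Fam_pos (hP _ _ _ _ _ (lf_mono (erase_subset r ρ)) (rt_mono (erase_subset r ρ)) h)]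
    exact (hG.m2 _ _ _ _ (lf_mono (erase_subset r ρ))).trans
      (hG.m3 _ _ _ _ (rt_mono (erase_subset r ρ)))
  · rw [Fam_neg h]; exact bot_le

/-- The condition of step 1. -/
def P1 (σ : Finset V) (τ : Finset U) (_ω : Finset W) : Prop := σ.Nonempty ∧ τ.Nonempty
/-- The common subcomplex. -/
def P12 (σ : Finset V) (τ : Finset U) (ω : Finset W) : Prop :=
  σ.Nonempty ∧ τ.Nonempty ∧ ω.Nonempty
/-- The condition of step 2. -/
def P2 (_σ : Finset V) (τ : Finset U) (ω : Finset W) : Prop := τ.Nonempty ∧ ω.Nonempty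

theorem exAug_congr {T : Type*} [LinearOrder T] {F F' : Finset T → AddSubgroup M} (h : F = F')
    (h' : ExAug F) : ExAug F' := h ▸ h'

theorem ex1 (hG : CoverFam G) : ∀ x ∈ Kf (Fam G P1), dd x = 0 → ∃ y ∈ Kf (Fam G P1), dd y = x := by
  have h : ExTot (Fam G (P1 (V := V) (U := U) (W := W))) := by
    refine exTot_of_snd (Fam_mono1 hG ?_) (Fam_mono2 hG ?_) fun σ => ?_
    · rintro σ σ' τ ω h ⟨a, b⟩; exact ⟨a.mono h, b⟩
    · rintro σ τ τ' ω ω' h _ ⟨a, b⟩; exact ⟨a, b.mono h⟩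
    · by_cases hσ : σ.Nonempty
      · have h1 : ExTot (fun τ ω => if τ.Nonempty then G σ τ ω else ⊥) := by
          refine exTot_of_snd ?_ ?_ ?_
          · intro τ ω u _
            show (if (τ.erase u).Nonempty then G σ (τ.erase u) ω else ⊥) ≤
              if τ.Nonempty then G σ τ ω else ⊥
            by_cases h : (τ.erase u).Nonempty
            · rw [if_pos h, if_pos (h.mono (erase_subset u τ))]
              exact hG.m2 _ _ _ _ (erase_subset u τ)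
            · rw [if_neg h]; exact bot_le
          · intro τ ω w _
            show (if τ.Nonempty then G σ τ (ω.erase w) else ⊥) ≤
              if τ.Nonempty then G σ τ ω else ⊥
            split
            · exact hG.m3 _ _ _ _ (erase_subset w ω)
            · exact le_rfl
          · intro τ
            by_cases h : τ.Nonempty
            · exact exAug_congr (by funext ω; rw [if_pos h]) (hG.e1 σ τ hσ h)
            · exact exAug_congr (by funext ω; rw [if_neg h]) exAug_bot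
        refine exAug_congr ?_ (exAug_pack h1)
        funext ρ
        by_cases h : (lf ρ).Nonempty
        · rw [if_pos h, Fam_pos ⟨hσ, h⟩]
        · rw [if_neg h, Fam_neg (fun h' => h h'.2)]
      · refine exAug_congr ?_ exAug_bot
        funext ρ
        rw [Fam_neg (fun h' => hσ h'.1)]
  exact fun x hx hc => h x hx hc

theorem ex2 (hG : CoverFam G) : ∀ x ∈ Kf (Fam G P2), dd x = 0 → ∃ y ∈ Kf (Fam G P2), dd y = x := by
  have h : ExTot (Fam G (P2 (V := V) (U := U) (W := W))) := by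
    refine exTot_of_fst (Fam_mono1 hG ?_) (Fam_mono2 hG ?_) fun ρ => ?_
    · rintro σ σ' τ ω _ ⟨a, b⟩; exact ⟨a, b⟩
    · rintro σ τ τ' ω ω' h h' ⟨a, b⟩; exact ⟨a.mono h, b.mono h'⟩
    · by_cases h : (lf ρ).Nonempty ∧ (rt ρ).Nonempty
      · refine exAug_congr ?_ (hG.e2 _ _ h.1 h.2)
        funext σ
        rw [Fam_pos h]
      · refine exAug_congr ?_ exAug_bot
        funext σ
        rw [Fam_neg h]
  exact fun x hx hc => h x hx hc

/-- The total complex of step 3: `σ = ∅`, `ω` nonempty. -/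
theorem ex3 (hG : CoverFam G) : ExTot (fun (τ : Finset U) (ω : Finset W) =>
    if ω.Nonempty then G ∅ τ ω else ⊥) := by
  refine exTot_of_fst ?_ ?_ ?_
  · intro τ ω u _
    show (if ω.Nonempty then G ∅ (τ.erase u) ω else ⊥) ≤ if ω.Nonempty then G ∅ τ ω else ⊥
    split
    · exact hG.m2 _ _ _ _ (erase_subset u τ)
    · exact le_rfl
  · intro τ ω w _
    show (if (ω.erase w).Nonempty then G ∅ τ (ω.erase w) else ⊥) ≤
      if ω.Nonempty then G ∅ τ ω else ⊥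
    by_cases h : (ω.erase w).Nonempty
    · rw [if_pos h, if_pos (h.mono (erase_subset w ω))]
      exact hG.m3 _ _ _ _ (erase_subset w ω)
    · rw [if_neg h]; exact bot_le
  · intro ω
    by_cases h : ω.Nonempty
    · exact exAug_congr (by funext τ; rw [if_pos h]) (hG.e3 ω h)
    · exact exAug_congr (by funext τ; rw [if_neg h]) exAug_bot

/-- Functions of two finite sets with values in a family. -/
def Kg {U W : Type*} (F : Finset U → Finset W → AddSubgroup M) :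
    AddSubgroup (Finset U → Finset W → M) where
  carrier := {x | ∀ σ ρ, x σ ρ ∈ F σ ρ}
  zero_mem' := fun _ _ => zero_mem _
  add_mem' := fun ha hb σ ρ => add_mem (ha σ ρ) (hb σ ρ)
  neg_mem' := fun ha σ ρ => neg_mem (ha σ ρ)

/-- `{σ = ∅, ω ≠ ∅}` -/
noncomputable def F3 (G : Finset V → Finset U → Finset W → AddSubgroup M) (τ : Finset U)
    (ω : Finset W) : AddSubgroup M := if ω.Nonempty then G ∅ τ ω else ⊥

open Classical in
/-- `{σ = ∅, τ ≠ ∅, ω ≠ ∅}` -/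
noncomputable def F3s (G : Finset V → Finset U → Finset W → AddSubgroup M) (τ : Finset U)
    (ω : Finset W) : AddSubgroup M := if τ.Nonempty ∧ ω.Nonempty then G ∅ τ ω else ⊥

theorem F3_mono (hG : CoverFam G) : (∀ τ ω, ∀ u ∈ τ, F3 G (τ.erase u) ω ≤ F3 G τ ω) ∧
    (∀ τ ω, ∀ w ∈ ω, F3 G τ (ω.erase w) ≤ F3 G τ ω) := by
  constructor
  · intro τ ω u _
    unfold F3
    split
    · exact hG.m2 _ _ _ _ (erase_subset u τ)
    · exact le_rfl
  · intro τ ω w _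
    unfold F3
    by_cases h : (ω.erase w).Nonempty
    · rw [if_pos h, if_pos (h.mono (erase_subset w ω))]
      exact hG.m3 _ _ _ _ (erase_subset w ω)
    · rw [if_neg h]; exact bot_le

theorem F3s_le : Kg (F3s G) ≤ Kg (F3 G) := by
  intro x hx τ ω
  have := hx τ ω
  unfold F3s at this
  unfold F3
  by_cases h : τ.Nonempty ∧ ω.Nonempty
  · rw [if_pos h] at this
    rw [if_pos h.2]; exact this
  · rw [if_neg h] at this
    rw [AddSubgroup.mem_bot.mp this]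
    exact zero_mem _

theorem F3_sub {x : Finset U → Finset W → M} (hx : x ∈ Kg (F3 G)) (h : ∀ ω, x ∅ ω = 0) :
    x ∈ Kg (F3s G) := by
  intro τ ω
  have := hx τ ω
  unfold F3 at this
  unfold F3s
  by_cases hω : ω.Nonempty
  · rw [if_pos hω] at this
    by_cases hτ : τ.Nonempty
    · rw [if_pos ⟨hτ, hω⟩]; exact this
    · rw [not_nonempty_iff_eq_empty.mp hτ, h]
      exact zero_mem _
  · rw [if_neg hω] at this
    rw [AddSubgroup.mem_bot.mp this]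
    exact zero_mem _

/-- The hypothesis: surjectivity for the single complex. -/
def SurjSingle (G G' : Finset V → Finset U → Finset W → AddSubgroup M) : Prop :=
  ∀ z : Finset W → M, z ∅ = 0 → (∀ ω, ω.Nonempty → z ω ∈ G ∅ ∅ ω) → cd z = 0 →
    ∃ z' y : Finset W → M, z' ∅ = 0 ∧ y ∅ = 0 ∧ (∀ ω, ω.Nonempty → z' ω ∈ G' ∅ ∅ ω) ∧
      (∀ ω, ω.Nonempty → y ω ∈ G ∅ ∅ ω) ∧ cd z' = 0 ∧ z = z' + cd y

/-- Extension by zero of a function of `ω` to `τ ≠ ∅`. -/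
noncomputable def e3f (z : Finset W → M) (τ : Finset U) (ω : Finset W) : M :=
  if τ = ∅ then z ω else 0

theorem e3f_mem {z : Finset W → M} (h0 : z ∅ = 0) (h : ∀ ω, ω.Nonempty → z ω ∈ G ∅ ∅ ω) :
    (e3f z : Finset U → Finset W → M) ∈ Kg (F3 G) := by
  intro τ ω
  unfold e3f F3
  by_cases hτ : τ = ∅
  · rw [if_pos hτ]
    by_cases hω : ω.Nonempty
    · rw [if_pos hω, hτ]; exact h ω hω
    · rw [not_nonempty_iff_eq_empty.mp hω, h0]; exact zero_mem _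
  · rw [if_neg hτ]; exact zero_mem _

theorem dd_e3f (z : Finset W → M) (ω : Finset W) :
    dd (e3f z : Finset U → Finset W → M) ∅ ω = cd z ω := by
  rw [dd_empty_left]
  exact cd_congr fun w _ => if_pos rfl

theorem dd_mem_Kg {F : Finset U → Finset W → AddSubgroup M}
    (hF : (∀ τ ω, ∀ u ∈ τ, F (τ.erase u) ω ≤ F τ ω) ∧
      (∀ τ ω, ∀ w ∈ ω, F τ (ω.erase w) ≤ F τ ω)) {x : Finset U → Finset W → M}
    (hx : x ∈ Kg F) : dd x ∈ Kg F := fun σ ρ => dd_mem hF.1 hF.2 hx σ ρ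

theorem step3 (hG : CoverFam G) (hG' : CoverFam G')
    (hle : ∀ σ τ ω, G' σ τ ω ≤ G σ τ ω) (hs : SurjSingle G G') :
    ∀ z ∈ Kg (F3s G), dd z = 0 → ∃ z' ∈ Kg (F3s G'), dd z' = 0 ∧
      ∃ y ∈ Kg (F3s G), z = z' + dd y := by
  refine surj_sub (ddH (V := U) (U := W) (M := M)) (fun x => dd_dd x) (K := Kg (F3 G))
    (K' := Kg (F3 G')) (fun x hx hc => ex3 hG x hx hc) F3s_le ?_
  intro x hx hDx
  have h0 : x ∅ ∅ = 0 := by
    have := hx ∅ ∅
    unfold F3 at this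
    rw [if_neg (by simp)] at this
    exact AddSubgroup.mem_bot.mp this
  obtain ⟨z', y, hz'0, hy0, hz', hy, hcz', hzy⟩ := hs (x ∅) h0 (fun ω hω => by
    have := hx ∅ ω
    unfold F3 at this
    rwa [if_pos hω] at this) (by
    funext ω
    have := hDx ∅ ω
    unfold F3s at this
    rw [if_neg (by simp)] at this
    have h1 : dd x ∅ ω = 0 := AddSubgroup.mem_bot.mp this
    rwa [dd_empty_left] at h1)
  refine ⟨e3f z', e3f_mem hz'0 hz', F3_sub (dd_mem_Kg (F3_mono hG') (e3f_mem hz'0 hz')) ?_,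
    e3f y, e3f_mem hy0 hy, x - e3f z' - dd (e3f y), F3_sub (sub_mem (sub_mem hx ?_) ?_) ?_, ?_⟩
  · intro ω
    show dd (e3f z') ∅ ω = 0
    rw [dd_e3f, hcz']; rfl
  · exact e3f_mem hz'0 (fun ω hω => hle _ _ _ (hz' ω hω))
  · exact dd_mem_Kg (F3_mono hG) (e3f_mem hy0 hy)
  · intro ω
    show x ∅ ω - e3f z' ∅ ω - dd (e3f y) ∅ ω = 0
    rw [dd_e3f, hzy]
    show (z' + cd y) ω - z' ω - cd y ω = 0
    rw [Pi.add_apply]; abel
  · show x = e3f z' + dd (e3f y) + (x - e3f z' - dd (e3f y))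
    abel

/-! ### Step 2 -/

theorem Kf_mem_pos {P : Finset V → Finset U → Finset W → Prop}
    {x : Finset V → Finset (U ⊕ₗ W) → M} (hx : x ∈ Kf (Fam G P)) {σ : Finset V}
    {ρ : Finset (U ⊕ₗ W)} (h : P σ (lf ρ) (rt ρ)) : x σ ρ ∈ G σ (lf ρ) (rt ρ) := by
  have := hx σ ρ
  rwa [Fam_pos h] at this

theorem Kf_mem_neg {P : Finset V → Finset U → Finset W → Prop}
    {x : Finset V → Finset (U ⊕ₗ W) → M} (hx : x ∈ Kf (Fam G P)) {σ : Finset V}
    {ρ : Finset (U ⊕ₗ W)} (h : ¬ P σ (lf ρ) (rt ρ)) : x σ ρ = 0 := by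
  have := hx σ ρ
  rw [Fam_neg h] at this
  exact AddSubgroup.mem_bot.mp this

theorem Kf_mk {P : Finset V → Finset U → Finset W → Prop}
    {x : Finset V → Finset (U ⊕ₗ W) → M} (h1 : ∀ σ ρ, P σ (lf ρ) (rt ρ) → x σ ρ ∈ G σ (lf ρ) (rt ρ))
    (h2 : ∀ σ ρ, ¬ P σ (lf ρ) (rt ρ) → x σ ρ = 0) : x ∈ Kf (Fam G P) := by
  intro σ ρ
  by_cases h : P σ (lf ρ) (rt ρ)
  · rw [Fam_pos h]; exact h1 σ ρ h
  · rw [Fam_neg h, h2 σ ρ h]; exact zero_mem _

theorem Kf_P12_of_P2 {x : Finset V → Finset (U ⊕ₗ W) → M} (hx : x ∈ Kf (Fam G P2))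
    (h : ∀ ρ, x ∅ ρ = 0) : x ∈ Kf (Fam G P12) := by
  refine Kf_mk (fun σ ρ hP => Kf_mem_pos hx hP.2) fun σ ρ hP => ?_
  by_cases hσ : σ.Nonempty
  · exact Kf_mem_neg hx (fun h' => hP ⟨hσ, h'⟩)
  · rw [not_nonempty_iff_eq_empty.mp hσ, h]

theorem Kf_P12_of_P1 {x : Finset V → Finset (U ⊕ₗ W) → M} (hx : x ∈ Kf (Fam G P1))
    (h : ∀ σ ρ, rt ρ = ∅ → x σ ρ = 0) : x ∈ Kf (Fam G P12) := by
  refine Kf_mk (fun σ ρ hP => Kf_mem_pos hx ⟨hP.1, hP.2.1⟩) fun σ ρ hP => ?_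
  by_cases hω : (rt ρ).Nonempty
  · exact Kf_mem_neg hx (fun h' => hP ⟨h'.1, h'.2, hω⟩)
  · exact h σ ρ (not_nonempty_iff_eq_empty.mp hω)

theorem P12_le_P2 : Kf (Fam G P12) ≤ Kf (Fam G P2) := fun _ hx =>
  Kf_mk (fun σ ρ hP => by
    by_cases hσ : σ.Nonempty
    · exact Kf_mem_pos hx ⟨hσ, hP⟩
    · rw [Kf_mem_neg hx (fun h => hσ h.1)]; exact zero_mem _)
    fun σ ρ hP => Kf_mem_neg hx (fun h => hP h.2)

theorem P12_le_P1 : Kf (Fam G P12) ≤ Kf (Fam G P1) := fun _ hx =>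
  Kf_mk (fun σ ρ hP => by
    by_cases hω : (rt ρ).Nonempty
    · exact Kf_mem_pos hx ⟨hP.1, hP.2, hω⟩
    · rw [Kf_mem_neg hx (fun h => hω h.2.2)]; exact zero_mem _)
    fun σ ρ hP => Kf_mem_neg hx (fun h => hP ⟨h.1, h.2.1⟩)

theorem P1_mono : (∀ (σ σ' : Finset V) (τ : Finset U) (ω : Finset W), σ ⊆ σ' → P1 σ τ ω →
    P1 σ' τ ω) ∧ (∀ (σ : Finset V) (τ τ' : Finset U) (ω ω' : Finset W), τ ⊆ τ' → ω ⊆ ω' →
      P1 σ τ ω → P1 σ τ' ω') :=
  ⟨fun _ _ _ _ h h' => ⟨h'.1.mono h, h'.2⟩, fun _ _ _ _ _ h _ h' => ⟨h'.1, h'.2.mono h⟩⟩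

theorem P2_mono : (∀ (σ σ' : Finset V) (τ : Finset U) (ω : Finset W), σ ⊆ σ' → P2 σ τ ω →
    P2 σ' τ ω) ∧ (∀ (σ : Finset V) (τ τ' : Finset U) (ω ω' : Finset W), τ ⊆ τ' → ω ⊆ ω' →
      P2 σ τ ω → P2 σ τ' ω') :=
  ⟨fun _ _ _ _ _ h' => h', fun _ _ _ _ _ h h1 h' => ⟨h'.1.mono h, h'.2.mono h1⟩⟩

theorem dd_mem_Kf (hG : CoverFam G) {P : Finset V → Finset U → Finset W → Prop}
    (hP : (∀ (σ σ' : Finset V) (τ : Finset U) (ω : Finset W), σ ⊆ σ' → P σ τ ω →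
    P σ' τ ω) ∧ (∀ (σ : Finset V) (τ τ' : Finset U) (ω ω' : Finset W), τ ⊆ τ' → ω ⊆ ω' →
      P σ τ ω → P σ τ' ω')) {x : Finset V → Finset (U ⊕ₗ W) → M}
    (hx : x ∈ Kf (Fam G P)) : dd x ∈ Kf (Fam G P) := fun σ ρ =>
  dd_mem (Fam_mono1 hG hP.1) (Fam_mono2 hG hP.2) hx σ ρ

/-- Extension by zero to `σ ≠ ∅`. -/
noncomputable def e2f (z : Finset U → Finset W → M) (σ : Finset V) (ρ : Finset (U ⊕ₗ W)) : M :=
  if σ = ∅ then z (lf ρ) (rt ρ) else 0

theorem e2f_mem {z : Finset U → Finset W → M} (hz : z ∈ Kg (F3s G)) :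
    (e2f z : Finset V → Finset (U ⊕ₗ W) → M) ∈ Kf (Fam G P2) := by
  refine Kf_mk (fun σ ρ hP => ?_) fun σ ρ hP => ?_
  · unfold e2f
    by_cases hσ : σ = ∅
    · rw [if_pos hσ, hσ]
      have := hz (lf ρ) (rt ρ)
      unfold F3s at this
      rwa [if_pos ⟨hP.1, hP.2⟩] at this
    · rw [if_neg hσ]; exact zero_mem _
  · unfold e2f
    by_cases hσ : σ = ∅
    · rw [if_pos hσ]
      have := hz (lf ρ) (rt ρ)
      unfold F3s at this
      rw [if_neg (show ¬ ((lf ρ).Nonempty ∧ (rt ρ).Nonempty) from hP)] at this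
      exact AddSubgroup.mem_bot.mp this
    · rw [if_neg hσ]

theorem dd_e2f (z : Finset U → Finset W → M) (ρ : Finset (U ⊕ₗ W)) :
    dd (e2f z : Finset V → Finset (U ⊕ₗ W) → M) ∅ ρ = dd z (lf ρ) (rt ρ) := by
  rw [dd_empty_left, ← cd_pack]
  exact cd_congr fun w _ => if_pos rfl

theorem step2 (hG : CoverFam G) (hG' : CoverFam G')
    (hle : ∀ σ τ ω, G' σ τ ω ≤ G σ τ ω) (hs : SurjSingle G G') :
    ∀ z ∈ Kf (Fam G P12), dd z = 0 → ∃ z' ∈ Kf (Fam G' P12), dd z' = 0 ∧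
      ∃ y ∈ Kf (Fam G P12), z = z' + dd y := by
  refine surj_sub (ddH (V := V) (U := U ⊕ₗ W) (M := M)) (fun x => dd_dd x) (K := Kf (Fam G P2))
    (K' := Kf (Fam G' P2)) (ex2 hG) P12_le_P2 ?_
  intro x hx hDx
  obtain ⟨z', hz', hcz', y, hy, hzy⟩ := step3 hG hG' hle hs (fun τ ω => x ∅ (pk τ ω)) (by
      intro τ ω
      unfold F3s
      by_cases h : τ.Nonempty ∧ ω.Nonempty
      · rw [if_pos h]
        have := Kf_mem_pos hx (σ := ∅) (ρ := pk τ ω) (by rwa [lf_pk, rt_pk])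
        rwa [lf_pk, rt_pk] at this
      · rw [if_neg h]
        have := Kf_mem_neg hx (σ := ∅) (ρ := pk τ ω) (by rwa [lf_pk, rt_pk])
        show x ∅ (pk τ ω) ∈ (⊥ : AddSubgroup M)
        rw [this]; exact zero_mem _) (by
      funext τ ω
      rw [← cd_pk, ← dd_empty_left]
      exact Kf_mem_neg hDx (fun h => by simpa using h.1))
  have hle2 : ∀ {w : Finset U → Finset W → M}, w ∈ Kg (F3s G') → w ∈ Kg (F3s G) := by
    intro w hw τ ω
    have := hw τ ω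
    unfold F3s at this ⊢
    split
    · next h => rw [if_pos h] at this; exact hle _ _ _ this
    · next h => rwa [if_neg h] at this
  refine ⟨e2f z', e2f_mem hz', Kf_P12_of_P2 (dd_mem_Kf hG' P2_mono (e2f_mem hz')) ?_,
    e2f y, e2f_mem hy, x - e2f z' - dd (e2f y), Kf_P12_of_P2 (sub_mem (sub_mem hx
      (e2f_mem (hle2 hz'))) (dd_mem_Kf hG P2_mono (e2f_mem hy))) ?_, ?_⟩
  · intro ρ
    show dd (e2f z') ∅ ρ = 0
    rw [dd_e2f, hcz']; rfl
  · intro ρ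
    show x ∅ ρ - e2f z' ∅ ρ - dd (e2f y) ∅ ρ = 0
    rw [dd_e2f]
    have h1 : x ∅ ρ = (fun τ ω => x ∅ (pk τ ω)) (lf ρ) (rt ρ) := by
      show x ∅ ρ = x ∅ (pk (lf ρ) (rt ρ))
      rw [pk_lf_rt]
    rw [h1, hzy]
    show (z' + dd y) (lf ρ) (rt ρ) - z' (lf ρ) (rt ρ) - dd y (lf ρ) (rt ρ) = 0
    simp only [Pi.add_apply]; abel
  · show x = e2f z' + dd (e2f y) + (x - e2f z' - dd (e2f y))
    abel

/-! ### Step 1 and the theorem -/

/-- Extension by zero to `ω ≠ ∅`. -/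
noncomputable def e1f (z : Finset V → Finset U → M) (σ : Finset V) (ρ : Finset (U ⊕ₗ W)) : M :=
  if rt ρ = ∅ then z σ (lf ρ) else 0

theorem dd_pk_empty (y : Finset V → Finset (U ⊕ₗ W) → M) (σ : Finset V) (τ : Finset U) :
    dd y σ (pk τ (∅ : Finset W)) = dd (fun s t => y s (pk t ∅)) σ τ := by
  rw [dd_eq, dd_eq, cd_pk, dd_empty_right]

/-- **Change of covering.** If `H(G') → H(G)` is onto for the complex of the covering `W`, then
it is onto for the double complex of the coverings `V`, `U`. -/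
theorem surj_of_cover (hG : CoverFam G) (hG' : CoverFam G')
    (hle : ∀ σ τ ω, G' σ τ ω ≤ G σ τ ω) (hs : SurjSingle G G')
    (z : Finset V → Finset U → M) (hz1 : ∀ τ, z ∅ τ = 0) (hz2 : ∀ σ, z σ ∅ = 0)
    (hz : ∀ σ τ, σ.Nonempty → τ.Nonempty → z σ τ ∈ G σ τ ∅) (hc : dd z = 0) :
    ∃ z' y : Finset V → Finset U → M, (∀ τ, z' ∅ τ = 0) ∧ (∀ σ, z' σ ∅ = 0) ∧
      (∀ σ τ, σ.Nonempty → τ.Nonempty → z' σ τ ∈ G' σ τ ∅) ∧ dd z' = 0 ∧
      (∀ τ, y ∅ τ = 0) ∧ (∀ σ, y σ ∅ = 0) ∧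
      (∀ σ τ, σ.Nonempty → τ.Nonempty → y σ τ ∈ G σ τ ∅) ∧ z = z' + dd y := by
  have key := surj_quot (ddH (V := V) (U := U ⊕ₗ W) (M := M)) (fun x => dd_dd x)
    (K := Kf (Fam G P1)) (K' := Kf (Fam G' P1)) (ex1 hG) (ex1 hG') P12_le_P1 P12_le_P1
    (fun x hx => Kf_mk (fun σ ρ hP => hle _ _ _ (Kf_mem_pos hx hP))
      fun σ ρ hP => Kf_mem_neg hx hP) (step2 hG hG' hle hs)
  have hx : (e1f z : Finset V → Finset (U ⊕ₗ W) → M) ∈ Kf (Fam G P1) := by
    refine Kf_mk (fun σ ρ hP => ?_) fun σ ρ hP => ?_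
    · unfold e1f
      by_cases hω : rt ρ = ∅
      · rw [if_pos hω, hω]; exact hz _ _ hP.1 hP.2
      · rw [if_neg hω]; exact zero_mem _
    · unfold e1f
      by_cases hω : rt ρ = ∅
      · rw [if_pos hω]
        by_cases hσ : σ.Nonempty
        · have : ¬ (lf ρ).Nonempty := fun h => hP ⟨hσ, h⟩
          rw [not_nonempty_iff_eq_empty.mp this, hz2]
        · rw [not_nonempty_iff_eq_empty.mp hσ, hz1]
      · rw [if_neg hω]
  have hpe : ∀ (σ : Finset V) (τ : Finset U),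
      (e1f z : Finset V → Finset (U ⊕ₗ W) → M) σ (pk τ ∅) = z σ τ := by
    intro σ τ
    unfold e1f
    rw [rt_pk, if_pos rfl, lf_pk]
  have hDx : dd (e1f z : Finset V → Finset (U ⊕ₗ W) → M) ∈ Kf (Fam G P12) := by
    refine Kf_P12_of_P1 (dd_mem_Kf hG P1_mono hx) fun σ ρ hρ => ?_
    have h1 : ρ = pk (lf ρ) ∅ := by
      conv_lhs => rw [← pk_lf_rt ρ, hρ]
    rw [h1, dd_pk_empty]
    simp only [hpe]
    rw [hc]; rfl
  obtain ⟨x', hx', hDx', u, hu, y, hy, hxx⟩ := key (e1f z) hx hDx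
  have hneg : ∀ {H : Finset V → Finset U → Finset W → AddSubgroup M}
      {w : Finset V → Finset (U ⊕ₗ W) → M}, w ∈ Kf (Fam H P1) →
      (∀ τ : Finset U, w ∅ (pk τ ∅) = 0) ∧ (∀ σ, w σ (pk ∅ ∅) = 0) ∧
      (∀ σ τ, σ.Nonempty → τ.Nonempty → w σ (pk τ ∅) ∈ H σ τ ∅) := by
    intro H w hw
    refine ⟨fun τ => Kf_mem_neg hw (fun h => by simpa using h.1), fun σ =>
      Kf_mem_neg hw (fun h => ?_), fun σ τ hσ hτ => ?_⟩
    · have := h.2
      rw [lf_pk] at this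
      exact not_nonempty_empty this
    · have := Kf_mem_pos hw (σ := σ) (ρ := pk τ ∅) ⟨hσ, by rwa [lf_pk]⟩
      rwa [lf_pk, rt_pk] at this
  obtain ⟨a1, a2, a3⟩ := hneg hx'
  obtain ⟨b1, b2, b3⟩ := hneg hu
  refine ⟨fun σ τ => x' σ (pk τ ∅), fun σ τ => u σ (pk τ ∅), a1, a2, a3, ?_, b1, b2, b3, ?_⟩
  · funext σ τ
    rw [← dd_pk_empty]
    exact Kf_mem_neg hDx' (fun h => by
      have := h.2.2
      rw [rt_pk] at this
      exact not_nonempty_empty this)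
  · funext σ τ
    show z σ τ = x' σ (pk τ ∅) + dd (fun σ τ => u σ (pk τ ∅)) σ τ
    rw [← dd_pk_empty, ← hpe σ τ, hxx]
    have hy0 : y σ (pk τ ∅) = 0 := Kf_mem_neg hy (fun h => by
      have := h.2.2
      rw [rt_pk] at this
      exact not_nonempty_empty this)
    show x' σ (pk τ ∅) + dd u σ (pk τ ∅) + y σ (pk τ ∅) = _
    rw [hy0, add_zero]

end Cover

end Pool.Agent.DBX.Q
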