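import Mathlib

set_option autoImplicit false

/-! # MP_2c751f_ag, squad DBX: definitions -/

namespace Pool.Agent.DBX

open MvPolynomial

noncomputable section

universe u

/-! ## The Čech differential on functions on finite sets -/

/-- (cd x) σ = ∑_{v ∈ σ} (-1)^{#{w ∈ σ, w < v}} x (σ \ v).  The cochains of degree `j` are the
functions supported on sets with `j` elements (extended Čech complex); the non-augmented
complex consists of the functions vanishing at `∅`. -/
def cd {V : Type*} [LinearOrder V] {M : Type*} [AddCommGroup M]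
    (x : Finset V → M) (σ : Finset V) : M :=
  ∑ v ∈ σ, ((-1 : ℤ) ^ (σ.filter (fun w => w < v)).card) • x (σ.erase v)

/-- Total differential for functions of two finite sets. -/
def dd {V U : Type*} [LinearOrder V] [LinearOrder U] {M : Type*} [AddCommGroup M]
    (x : Finset V → Finset U → M) (σ : Finset V) (τ : Finset U) : M :=
  cd (fun s => x s τ) σ + ((-1 : ℤ) ^ σ.card) • cd (x σ) τ

/-! ## Polynomial rings, fractions, homogeneous fractions -/

/-- `k[x_0, …, x_{n-1}]` -/
abbrev Pol (k : Type u) [Field k] (n : ℕ) : Type u := MvPolynomial (Fin n) k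

/-- `k(x_0, …, x_{n-1})` -/
abbrev Fr (k : Type u) [Field k] (n : ℕ) : Type u := FractionRing (MvPolynomial (Fin n) k)

/-- the inclusion `k[x] → k(x)` -/
abbrev inc (k : Type u) [Field k] (n : ℕ) : Pol k n →+* Fr k n :=
  algebraMap (MvPolynomial (Fin n) k) (FractionRing (MvPolynomial (Fin n) k))

theorem inc_ne {k : Type u} [Field k] {n : ℕ} {b : Pol k n} (hb : b ≠ 0) : inc k n b ≠ 0 := by
  intro h
  exact hb ((IsFractionRing.injective (MvPolynomial (Fin n) k)
    (FractionRing (MvPolynomial (Fin n) k))) (by rw [h, map_zero]))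

/-- Homogeneous fractions of degree `m`. -/
def HF (k : Type u) [Field k] (n : ℕ) (m : ℤ) : Submodule k (Fr k n) where
  carrier := {z | ∃ (a b : Pol k n) (i j : ℕ), a.IsHomogeneous i ∧ b.IsHomogeneous j ∧ b ≠ 0 ∧
    (a ≠ 0 → (i : ℤ) - j = m) ∧ z = inc k n a / inc k n b}
  zero_mem' := by
    refine ⟨0, 1, 0, 0, isHomogeneous_zero _ _ _, isHomogeneous_one _ _, one_ne_zero, ?_, ?_⟩
    · intro h; exact absurd rfl h
    · simp
  add_mem' := by
    rintro z z' ⟨a, b, i, j, ha, hb, hb0, hm, rfl⟩ ⟨a', b', i', j', ha', hb', hb0', hm', rfl⟩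
    by_cases h : a = 0
    · subst h
      exact ⟨a', b', i', j', ha', hb', hb0', hm', by simp⟩
    by_cases h' : a' = 0
    · subst h'
      exact ⟨a, b, i, j, ha, hb, hb0, hm, by simp⟩
    have e1 := hm h
    have e2 := hm' h'
    have e3 : i' + j = i + j' := by omega
    refine ⟨a * b' + a' * b, b * b', i + j', j + j', ?_, hb.mul hb', mul_ne_zero hb0 hb0', ?_, ?_⟩
    · exact (ha.mul hb').add (e3 ▸ (ha'.mul hb))
    · intro _; push_cast; omega
    · have h1 := inc_ne hb0
      have h2 := inc_ne hb0'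
      rw [map_add, map_mul, map_mul, map_mul]
      field_simp
  smul_mem' := by
    rintro c z ⟨a, b, i, j, ha, hb, hb0, hm, rfl⟩
    refine ⟨C c * a, b, i, j, ?_, hb, hb0, ?_, ?_⟩
    · have := (isHomogeneous_C (Fin n) c).mul ha
      rwa [zero_add] at this
    · intro h
      exact hm (fun h0 => h (by rw [h0, mul_zero]))
    · rw [map_mul, mul_div_assoc, Algebra.smul_def]
      rfl

/-- Homogeneous ideals. -/
def HomIdeal {k : Type u} [Field k] {n : ℕ} (I : Ideal (Pol k n)) : Prop :=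
  ∀ w ∈ I, ∀ d : ℕ, homogeneousComponent d w ∈ I

/-! ## Ideals of subalgebras of a field, as submodules of the field -/

/-- The ideal of `A` generated by the elements of `A` lying in the set `J`. -/
def genIn {k F : Type*} [Field k] [Field F] [Algebra k F] (A : Subalgebra k F) (J : Set F) :
    Ideal A :=
  Ideal.span {z : A | (z : F) ∈ J}

/-- An ideal of `A ⊆ F` as a `k`-submodule of `F`. -/
def toF {k F : Type*} [Field k] [Field F] [Algebra k F] (A : Subalgebra k F) (J : Ideal A) :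
    Submodule k F :=
  Submodule.map A.val.toLinearMap (J.restrictScalars k)

/-! ## The data: linear forms, an ideal, forms to be blown up -/

/-- Linear forms `g a`, an ideal `I`, forms `f j` of degree `δ` in `k[x_0,…,x_{n-1}]`. -/
structure Dat (k : Type u) [Field k] (n : ℕ) where
  /-- number of linear forms -/
  p : ℕ
  /-- the linear forms, `D(g a)` is the covering of projective space -/
  g : Fin p → Pol k n
  /-- the homogeneous ideal -/
  I : Ideal (Pol k n)
  /-- number of forms to be blown up -/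
  M : ℕ
  /-- their degree -/
  δ : ℕ
  /-- the forms to be blown up -/
  f : Fin M → Pol k n

namespace Dat

variable {k : Type u} [Field k] {n : ℕ}

/-- The standing assumptions on the data. -/
structure Good (D : Dat k n) : Prop where
  g_hom : ∀ a, (D.g a).IsHomogeneous 1
  g_ne : ∀ a, D.g a ≠ 0
  g_span : ∀ i, (X i : Pol k n) ∈ Submodule.span k (Set.range D.g)
  I_hom : HomIdeal D.I
  f_hom : ∀ j, (D.f j).IsHomogeneous D.δ
  f_ne : ∀ j, D.f j ≠ 0
  I_rad : D.I ≤ (Ideal.span (Set.range D.f)).radical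

/-- The ring `k[x][1/g_a, f_j/f_b : a ∈ σ, b ∈ τ, j]`. -/
def R (D : Dat k n) (σ : Finset (Fin D.p)) (τ : Finset (Fin D.M)) : Subalgebra k (Fr k n) :=
  Algebra.adjoin k (Set.range (inc k n) ∪ {z | ∃ a ∈ σ, z = (inc k n (D.g a))⁻¹} ∪
    {z | ∃ b ∈ τ, ∃ j, z = inc k n (D.f j) / inc k n (D.f b)})

/-- `I · R σ ∅` for `τ = ∅`, and the radical of `I · R σ τ` for `τ ≠ ∅`. -/
def E (D : Dat k n) (σ : Finset (Fin D.p)) (τ : Finset (Fin D.M)) : Submodule k (Fr k n) :=
  if τ = ∅ then toF (D.R σ τ) (genIn (D.R σ τ) (inc k n '' D.I))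
  else toF (D.R σ τ) (genIn (D.R σ τ) (inc k n '' D.I)).radical

/-- Degree `m` part. -/
def Eg (D : Dat k n) (m : ℤ) (σ : Finset (Fin D.p)) (τ : Finset (Fin D.M)) :
    Submodule k (Fr k n) :=
  D.E σ τ ⊓ HF k n m

/-- The complex `Q(m)`: the (shifted) cone of `RΓ(P, I(m)) → RΓ(P', O(-E)(m))`. -/
def InQ (D : Dat k n) (m : ℤ) (x : Finset (Fin D.p) → Finset (Fin D.M) → Fr k n) : Prop :=
  (∀ τ, x ∅ τ = 0) ∧ ∀ σ τ, x σ τ ∈ D.Eg m σ τ

/-- The subcomplex `B(m)`: `RΓ(P', O(-E)(m))`. -/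
def InB (D : Dat k n) (m : ℤ) (x : Finset (Fin D.p) → Finset (Fin D.M) → Fr k n) : Prop :=
  D.InQ m x ∧ ∀ σ, x σ ∅ = 0

/-- Coordinate ring `k[x_i/g_a, f_j/f_b]` of the chart `D(g_a) ∩ D(f_b)` of the blow-up. -/
def ch (D : Dat k n) (a : Fin D.p) (b : Fin D.M) : Subalgebra k (Fr k n) :=
  Algebra.adjoin k ({z | ∃ i, z = inc k n (X i) / inc k n (D.g a)} ∪
    {z | ∃ j, z = inc k n (D.f j) / inc k n (D.f b)})

/-- The ideal of the chart generated by `I`, as a set of generators in the function field: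
the elements `w / g_a^d` with `w ∈ I` homogeneous of degree `d`. -/
def I0 (D : Dat k n) (a : Fin D.p) : Set (Fr k n) :=
  {z | ∃ (d : ℕ) (w : Pol k n), w ∈ D.I ∧ w.IsHomogeneous d ∧ z = inc k n w / inc k n (D.g a) ^ d}

/-- Étale coordinates on an affine open subset with coordinate ring `A` (inside the chart `a,b`)
such that the reduced inverse image of `V(I)` is given by `t_0 ⋯ t_{e-1}` and the inverse image of
the ideal (f) by a monomial in `t_0, …, t_{e-1}`. -/
def LogCoord (D : Dat k n) (a : Fin D.p) (b : Fin D.M) (A : Subalgebra k (Fr k n))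
    (t : Fin (n - 1) → A) (e : ℕ) : Prop :=
  (MvPolynomial.aeval (R := k) t).toRingHom.Etale ∧
  (genIn A (D.I0 a)).radical = Ideal.span {∏ i : Fin (n - 1), if (i : ℕ) < e then t i else 1} ∧
  ∃ c : Fin (n - 1) → ℕ, (∀ i : Fin (n - 1), e ≤ (i : ℕ) → c i = 0) ∧
    genIn A {inc k n (D.f b) / inc k n (D.g a) ^ D.δ} = Ideal.span {∏ i : Fin (n - 1), t i ^ c i}

/-- The blow-up of `P^{n-1}` in the ideal (f) is smooth and the reduced inverse image of `V(I)`
is a divisor with simple normal crossings. -/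
def LogSmooth (D : Dat k n) : Prop :=
  ∀ (a : Fin D.p) (b : Fin D.M) (q : Ideal (D.ch a b)), q.IsPrime →
    ∃ s : D.ch a b, s ∉ q ∧
      ∃ (t : Fin (n - 1) → (Algebra.adjoin k ((D.ch a b : Set (Fr k n)) ∪ {((s : Fr k n))⁻¹})))
        (e : ℕ), D.LogCoord a b _ t e

/-- The same, and the inverse image of the hyperplane `l = 0` is smooth and transversal to all
strata. -/
def LogSmoothH (D : Dat k n) (l : Pol k n) : Prop :=
  ∀ (a : Fin D.p) (b : Fin D.M) (q : Ideal (D.ch a b)), q.IsPrime →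
    ∃ s : D.ch a b, s ∉ q ∧
      ∃ (t : Fin (n - 1) → (Algebra.adjoin k ((D.ch a b : Set (Fr k n)) ∪ {((s : Fr k n))⁻¹})))
        (e : ℕ), D.LogCoord a b _ t e ∧
        (genIn (Algebra.adjoin k ((D.ch a b : Set (Fr k n)) ∪ {((s : Fr k n))⁻¹}))
            {inc k n l / inc k n (D.g a)} = ⊤ ∨
          ∃ i : Fin (n - 1), e ≤ (i : ℕ) ∧
            genIn (Algebra.adjoin k ((D.ch a b : Set (Fr k n)) ∪ {((s : Fr k n))⁻¹}))
              {inc k n l / inc k n (D.g a)} = Ideal.span {t i})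

/-- Exactness at the prime `q` of the augmented Čech complex
`0 → I_a → ∏_b E_{a,b} → ∏_{b<b'} E_{a,bb'} → …` over `D(g_a)`. -/
def ExactAt (D : Dat k n) (a : Fin D.p) (q : Ideal (Pol k n)) : Prop :=
  ∀ x : Finset (Fin D.M) → Fr k n, (∀ τ, x τ ∈ D.E {a} τ) → (∀ τ, cd x τ = 0) →
    ∃ s : Pol k n, s ∉ q ∧ ∃ y : Finset (Fin D.M) → Fr k n, (∀ τ, y τ ∈ D.E {a} τ) ∧
      ∀ τ, cd y τ = inc k n s * x τ

/-- Exactness at all homogeneous primes of height at most `e`, except the irrelevant one. -/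
def DB (D : Dat k n) (e : ℕ) : Prop :=
  ∀ (q : Ideal (Pol k n)), q.IsPrime → HomIdeal q →
    q.height ≤ e → ∀ a, D.g a ∉ q → D.ExactAt a q

end Dat

end

end Pool.Agent.DBX
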