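import Pool.Agent.DBX.Gen

set_option autoImplicit false

/-! # MP_2c751f_ag, squad DBX: the final statement -/

namespace Pool.Agent.DBX

open MvPolynomial

noncomputable section

universe u

variable {k : Type u} [Field k] {n : ℕ}

/-- The data with the coordinate functions as linear forms. -/
def mkDat (I : Ideal (Pol k n)) (M δ : ℕ) (f : Fin M → Pol k n) : Dat k n where
  p := n
  g := X
  I := I
  M := M
  δ := δ
  f := f

/-- Serre's condition (S_r). -/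
def SerreCond (R : Type u) [CommRing R] (r : ℕ) : Prop :=
  ∀ (P : Ideal R) [P.IsPrime], ∃ rs : List (Localization.AtPrime P),
    (∀ x ∈ rs, x ∈ IsLocalRing.maximalIdeal (Localization.AtPrime P)) ∧
    RingTheory.Sequence.IsRegular (Localization.AtPrime P) rs ∧
    (rs.length : WithBot ℕ∞) = min (r : WithBot ℕ∞) (ringKrullDim (Localization.AtPrime P))

/-- Cohen–Macaulay rings: the depth of every localisation at a prime is its dimension. -/
def CM (R : Type u) [CommRing R] : Prop :=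
  ∀ (P : Ideal R) [P.IsPrime], ∃ rs : List (Localization.AtPrime P),
    (∀ x ∈ rs, x ∈ IsLocalRing.maximalIdeal (Localization.AtPrime P)) ∧
    RingTheory.Sequence.IsRegular (Localization.AtPrime P) rs ∧
    (rs.length : WithBot ℕ∞) = ringKrullDim (Localization.AtPrime P)

/-- `S/I` is Du Bois in codimension `c` (Schwede's criterion): there are forms `f_j` of the same
degree with `V(f) ⊆ V(I)` whose blow-up is a log resolution of (P^{n-1}, V(I)), such that at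
every prime `P ≠ 𝔪` of `S/I` with `dim (S/I)_P ≤ c` the map `I → Rπ_* O(-E)` is an isomorphism. -/
def DuBoisInCodim (I : Ideal (Pol k n)) (c : ℕ) : Prop :=
  ∃ (M δ : ℕ) (f : Fin M → Pol k n),
    (∀ j, (f j).IsHomogeneous δ) ∧ (∀ j, f j ≠ 0) ∧ I ≤ (Ideal.span (Set.range f)).radical ∧
    (mkDat I M δ f).LogSmooth ∧
    ∀ (P : Ideal (Pol k n ⧸ I)) [P.IsPrime],
      ringKrullDim (Localization.AtPrime P) ≤ (c : WithBot ℕ∞) →
      ∀ a : Fin n, (X a : Pol k n) ∉ P.comap (Ideal.Quotient.mk I) →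
        (mkDat I M δ f).ExactAt a (P.comap (Ideal.Quotient.mk I))

/-- `k[x][1/x_a : a ∈ σ]` -/
def Sl (k : Type u) [Field k] (n : ℕ) (σ : Finset (Fin n)) : Subalgebra k (Fr k n) :=
  Algebra.adjoin k (Set.range (inc k n) ∪ {z | ∃ a ∈ σ, z = (inc k n (X a))⁻¹})

/-- `H^j_𝔪(S/I)_m = 0`, by the Čech complex `⊕_{|σ| = j} (S/I)_{x_σ}`, where
(S/I)_{x_σ} = S_{x_σ} / I S_{x_σ}. -/
def LCZero (I : Ideal (Pol k n)) (j : ℕ) (m : ℤ) : Prop :=
  ∀ x : Finset (Fin n) → Fr k n, (∀ σ, x σ ∈ (Sl k n σ) ∧ x σ ∈ HF k n m) →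
    (∀ σ, σ.card ≠ j → x σ = 0) →
    (∀ σ, cd x σ ∈ toF (Sl k n σ) (genIn (Sl k n σ) (inc k n '' I))) →
    ∃ y : Finset (Fin n) → Fr k n, (∀ σ, y σ ∈ (Sl k n σ) ∧ y σ ∈ HF k n m) ∧
      (∀ σ, σ.card + 1 ≠ j → y σ = 0) ∧
      ∀ σ, x σ - cd y σ ∈ toF (Sl k n σ) (genIn (Sl k n σ) (inc k n '' I))

/-- The Hilbert function of `S/I`. -/
def hilb (I : Ideal (Pol k n)) (u : ℕ) : ℕ :=
  Module.finrank k (Submodule.map (Ideal.Quotient.mkₐ k I).toLinearMap
    (homogeneousSubmodule (Fin n) k u))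

/-- Main theorem. -/
def Stmt_MAIN : Prop :=
  ∀ (k : Type u) [Field k] [CharZero k] (n : ℕ) (I : Ideal (Pol k n)), HomIdeal I → I ≠ ⊤ →
    ∀ r : ℕ, 1 ≤ r → SerreCond (Pol k n ⧸ I) r → (2 ≤ r → DuBoisInCodim I (r - 2)) →
    (∀ (d : ℕ) (h : Polynomial ℤ), ringKrullDim (Pol k n ⧸ I) = d →
      (PowerSeries.mk (fun u => (hilb I u : ℤ))) * (1 - PowerSeries.X) ^ d = (h : PowerSeries ℤ) →
      ∀ i ≤ r, 0 ≤ h.coeff i) ∧
    ((∀ (j : ℕ) (m : ℤ), (r : ℤ) ≤ j + m → LCZero I j m) → CM (Pol k n ⧸ I))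

end

end Pool.Agent.DBX
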