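import Pool.Agent.DBX.Interface

set_option autoImplicit false

/-! # MP_2c751f_ag, squad DBX: generic hyperplane sections -/

namespace Pool.Agent.DBX

open MvPolynomial

noncomputable section

universe u

variable (k : Type u) [Field k] (n : ℕ)

/-- `k' = k(v_0, …, v_{n-1})` -/
abbrev Kx : Type u := FractionRing (MvPolynomial (Fin n) k)

/-- the variable `v_i` of `k'` -/
def vv (i : Fin n) : Kx k n := algebraMap (MvPolynomial (Fin n) k) (Kx k n) (X i)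

/-- `k[x_0..x_n] → k'[x_0..x_n]` -/
def bcP : Pol k (n + 1) →+* Pol (Kx k n) (n + 1) := MvPolynomial.map (algebraMap k (Kx k n))

/-- `k'[x_0..x_n] → k'[x_0..x_{n-1}]`, `x_i ↦ x_i`, `x_n ↦ ∑ v_i x_i` -/
def secP : Pol (Kx k n) (n + 1) →ₐ[Kx k n] Pol (Kx k n) n :=
  MvPolynomial.aeval (Fin.snoc (α := fun _ => Pol (Kx k n) n) X (∑ i, C (vv k n i) * X i))

/-- the generic linear form `x_n - ∑ v_i x_i` -/
def lgen : Pol (Kx k n) (n + 1) := X (Fin.last n) - ∑ i : Fin n, C (vv k n i) * X i.castSucc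

theorem bcP_injective : Function.Injective (bcP k n) :=
  MvPolynomial.map_injective _ (algebraMap k (Kx k n)).injective

/-- `k(x_0..x_n) → k'(x_0..x_n)` -/
def emb : Fr k (n + 1) →+* Fr (Kx k n) (n + 1) :=
  IsLocalization.map (M := nonZeroDivisors (Pol k (n + 1)))
    (T := nonZeroDivisors (Pol (Kx k n) (n + 1))) (Fr (Kx k n) (n + 1)) (bcP k n)
    (nonZeroDivisors_le_comap_nonZeroDivisors_of_injective _ (bcP_injective k n))

variable {k n}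

/-- Base change of the data to `k'`. -/
def Dat.bc (D : Dat k (n + 1)) : Dat (Kx k n) (n + 1) where
  p := D.p
  g := fun a => bcP k n (D.g a)
  I := D.I.map (bcP k n)
  M := D.M
  δ := D.δ
  f := fun j => bcP k n (D.f j)

/-- Generic hyperplane section of the data. -/
def Dat.sec (D : Dat k (n + 1)) : Dat (Kx k n) n where
  p := D.p
  g := fun a => secP k n (bcP k n (D.g a))
  I := (D.I.map (bcP k n)).map (secP k n)
  M := D.M
  δ := D.δ
  f := fun j => secP k n (bcP k n (D.f j))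

/-- The data without blow-up: an ideal of `k[x]` and the linear forms of `D`. -/
def Dat.wI (D : Dat k n) (J : Ideal (Pol k n)) : Dat k n where
  p := D.p
  g := D.g
  I := J
  M := D.M
  δ := D.δ
  f := D.f

/-- Base change: `E' = k' ⊗ E`. -/
def Stmt_BAS : Prop :=
  ∀ (k : Type u) [Field k] [CharZero k] (n : ℕ) (D : Dat k (n + 1)), D.Good →
    (∀ (m : ℤ) (σ : Finset (Fin D.p)) (τ : Finset (Fin D.M)), (σ.Nonempty ∨ τ = ∅) →
      D.bc.Eg m σ τ = Submodule.span (Kx k n) (emb k n '' D.Eg m σ τ)) ∧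
    ∀ (r : ℕ) (b : Fin r → Kx k n) (y : Fin r → Fr k (n + 1)), LinearIndependent k b →
      ∑ i, b i • emb k n (y i) = 0 → ∀ i, y i = 0

/-- The restriction to the generic hyperplane, as a linear map of the function fields. -/
def IsSp (sp : Fr (Kx k n) (n + 1) →ₗ[Kx k n] Fr (Kx k n) n) : Prop :=
  ∀ a b : Pol (Kx k n) (n + 1), secP k n b ≠ 0 →
    sp (inc _ _ a / inc _ _ b) = inc _ _ (secP k n a) / inc _ _ (secP k n b)

def Stmt_SEC : Prop :=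
  ∀ (k : Type u) [Field k] [CharZero k] (n : ℕ), 1 ≤ n → ∃ sp, IsSp (k := k) (n := n) sp ∧
    ∀ (D : Dat k (n + 1)), D.Good →
    (∀ (m : ℤ) (σ : Finset (Fin D.p)), ∀ x ∈ D.bc.Eg m σ ∅, sp x ∈ D.sec.Eg m σ ∅) ∧
    ∀ (m : ℤ) (σ : Finset (Fin D.p)) (τ : Finset (Fin D.M)), σ.Nonempty →
      (∀ x ∈ D.bc.Eg m σ τ, sp x ∈ D.sec.Eg m σ τ) ∧
      (∀ y ∈ D.sec.Eg m σ τ, ∃ x ∈ D.bc.Eg m σ τ, sp x = y) ∧
      (∀ x ∈ D.bc.Eg m σ τ, sp x = 0 →
        ∃ x' ∈ D.bc.Eg (m - 1) σ τ, x = inc _ _ (lgen k n) * x')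

/-- Inheritance of the geometric properties. -/
def Stmt_INH : Prop :=
  ∀ (k : Type u) [Field k] [CharZero k] (n : ℕ) (D : Dat k (n + 1)), 1 ≤ n → D.Good →
    D.bc.Good ∧ D.sec.Good ∧
    (D.LogSmooth → D.bc.LogSmoothH (lgen k n) ∧ D.sec.LogSmooth) ∧
    (∀ e, D.DB e → D.sec.DB e)

/-! ## Local cohomology of `I` -/

/-- `H^g` of the non-augmented Čech complex of `I` in degree `m` is zero
(`g = card σ`, so this is `H^{g-1}(P, I(m))`). -/
def Dat.AZ {k : Type u} [Field k] {n : ℕ} (D : Dat k n) (m : ℤ) (g : ℕ) : Prop :=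
  ∀ x : Finset (Fin D.p) → Fr k n, x ∅ = 0 → (∀ σ, x σ ∈ D.Eg m σ ∅) →
    (∀ σ, σ.card ≠ g → x σ = 0) → (∀ σ, cd x σ = 0) →
    ∃ y : Finset (Fin D.p) → Fr k n, y ∅ = 0 ∧ (∀ σ, y σ ∈ D.Eg m σ ∅) ∧ ∀ σ, cd y σ = x σ

/-- `H^g` of the augmented Čech complex of `I` in degree `m` is zero (`H^g_𝔪(I)_m = 0`). -/
def Dat.LC {k : Type u} [Field k] {n : ℕ} (D : Dat k n) (m : ℤ) (g : ℕ) : Prop :=
  ∀ x : Finset (Fin D.p) → Fr k n, (∀ σ, x σ ∈ D.Eg m σ ∅) →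
    (∀ σ, σ.card ≠ g → x σ = 0) → (∀ σ, cd x σ = 0) →
    ∃ y : Finset (Fin D.p) → Fr k n, (∀ σ, y σ ∈ D.Eg m σ ∅) ∧ ∀ σ, cd y σ = x σ

end

end Pool.Agent.DBX
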