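import Pool.Agent.DBX.Defs

set_option autoImplicit false

/-! # MP_2c751f_ag, squad DBX: the interface between the areas -/

namespace Pool.Agent.DBX

open MvPolynomial

noncomputable section

universe u v

/-! ## Area SER: Serre's theorems for systems of submodules of a fixed module -/

section Ser

variable {Λ : Type v} {Q 𝕄 : Type u} [CommRing Λ] [CommRing Q] [Algebra Λ Q] [AddCommGroup 𝕄]
  [Module Λ 𝕄] [Module Q 𝕄] [IsScalarTower Λ Q 𝕄] {m : ℕ}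

/-- The ring `Λ[h_w/h_v : v ∈ σ, w]`. -/
def Prg (Λ : Type v) {Q : Type u} [CommRing Λ] [CommRing Q] [Algebra Λ Q] {m : ℕ}
    (h : Fin m → Qˣ) (σ : Finset (Fin m)) : Subalgebra Λ Q :=
  Algebra.adjoin Λ {z | ∃ v ∈ σ, ∃ w, z = (h w : Q) * ((h v)⁻¹ : Qˣ)}

/-- A coherent sheaf on the projective scheme with charts `Λ[h_w/h_v]`, given by submodules
`M σ ⊆ 𝕄`. -/
structure Coh (h : Fin m → Qˣ) (M : Finset (Fin m) → Submodule Λ 𝕄) : Prop where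
  smul : ∀ σ, σ.Nonempty → ∀ a ∈ Prg Λ h σ, ∀ x ∈ M σ, a • x ∈ M σ
  mono : ∀ σ τ, σ.Nonempty → σ ⊆ τ → M σ ≤ M τ
  loc : ∀ σ τ, σ.Nonempty → σ ⊆ τ → ∀ x ∈ M τ,
    x ∈ Submodule.span (Prg Λ h τ) (M σ : Set 𝕄)
  fg : ∀ v, ∃ G : Finset 𝕄, (G : Set 𝕄) ⊆ M {v} ∧
    ∀ x ∈ M {v}, x ∈ Submodule.span (Prg Λ h {v}) (G : Set 𝕄)

/-- The twist `M(e)`. -/
def tw (h : Fin m → Qˣ) (M : Finset (Fin m) → Submodule Λ 𝕄) (e : ℤ) (σ : Finset (Fin m)) :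
    Set 𝕄 :=
  {x | ∀ v ∈ σ, (((h v) ^ (-e) : Qˣ) : Q) • x ∈ M σ}

/-- Cochains (non-augmented) with values in a family of sets. -/
def InC {V : Type*} {𝔸 : Type*} [Zero 𝔸] (M : Finset V → Set 𝔸) (x : Finset V → 𝔸) : Prop :=
  x ∅ = 0 ∧ ∀ σ, σ.Nonempty → x σ ∈ M σ

end Ser

/-- Finiteness of cohomology. -/
def Stmt_SER1 : Prop :=
  ∀ (Λ : Type v) (Q 𝕄 : Type u) [CommRing Λ] [CommRing Q] [Algebra Λ Q] [AddCommGroup 𝕄] [Module Λ 𝕄]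
    [Module Q 𝕄] [IsScalarTower Λ Q 𝕄] [IsNoetherianRing Λ] (m : ℕ) (h : Fin m → Qˣ)
    (M : Finset (Fin m) → Submodule Λ 𝕄), Coh h M →
    ∃ G : Finset (Finset (Fin m) → 𝕄), (∀ x ∈ G, InC (fun σ => (M σ : Set 𝕄)) x ∧ cd x = 0) ∧
      ∀ x, InC (fun σ => (M σ : Set 𝕄)) x → cd x = 0 →
        ∃ y, InC (fun σ => (M σ : Set 𝕄)) y ∧
          x - cd y ∈ Submodule.span Λ (G : Set (Finset (Fin m) → 𝕄))

/-- Vanishing of the higher cohomology of large twists. -/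
def Stmt_SER2 : Prop :=
  ∀ (Λ : Type v) (Q 𝕄 : Type u) [CommRing Λ] [CommRing Q] [Algebra Λ Q] [AddCommGroup 𝕄] [Module Λ 𝕄]
    [Module Q 𝕄] [IsScalarTower Λ Q 𝕄] [IsNoetherianRing Λ] (m : ℕ) (h : Fin m → Qˣ)
    (M : Finset (Fin m) → Submodule Λ 𝕄), Coh h M →
    ∃ e0 : ℤ, ∀ e : ℤ, e0 ≤ e → ∀ x, InC (tw h M e) x → cd x = 0 → (∀ v, x {v} = 0) →
      ∃ y, InC (tw h M e) y ∧ cd y = x

/-- Global sections of large twists: if the graded `Λ[h]`-module `⊕ N e` is finitely generated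
and has the localisations `M {v}`, then `N e` is the module of all sections of `M(e)` for
large `e`. -/
def Stmt_SER3 : Prop :=
  ∀ (Λ : Type v) (Q 𝕄 : Type u) [CommRing Λ] [CommRing Q] [Algebra Λ Q] [AddCommGroup 𝕄] [Module Λ 𝕄]
    [Module Q 𝕄] [IsScalarTower Λ Q 𝕄] [IsNoetherianRing Λ] (m : ℕ) (h : Fin m → Qˣ)
    (M : Finset (Fin m) → Submodule Λ 𝕄) (N : ℕ → Submodule Λ 𝕄), 0 < m → Coh h M →
    (N 0).FG → (∀ e, ∀ x, x ∈ N (e + 1) ↔ ∃ y : Fin m → 𝕄, (∀ v, y v ∈ N e) ∧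
      x = ∑ v, ((h v : Qˣ) : Q) • y v) →
    (∀ v, ∀ x, x ∈ M {v} ↔ ∃ e : ℕ, (((h v) ^ e : Qˣ) : Q) • x ∈ N e) →
    ∃ e0 : ℕ, ∀ e : ℕ, e0 ≤ e → ∀ x : 𝕄,
      (∀ v, ((((h v) ^ e)⁻¹ : Qˣ) : Q) • x ∈ M {v}) → x ∈ N e

/-! ## Area INJ: the injectivity theorem in characteristic zero -/

/-- A projective model: functions `h v` and affine coordinate rings `A v` in the field `L`. -/
structure PMod (K L : Type u) [Field K] [Field L] [Algebra K L] (m N : ℕ) where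
  /-- `h w / h v` are the coordinates of the finite morphism to `P^{m-1}` -/
  h : Fin m → L
  /-- coordinate rings of the charts -/
  A : Fin m → Subalgebra K L
  /-- étale coordinates -/
  t : Fin m → Fin N → L
  /-- the reduced divisor `D` -/
  c : Fin m → Fin N → ℕ
  /-- the divisor `D' ≥ D` with the same support -/
  c' : Fin m → Fin N → ℕ

namespace PMod

variable {K L : Type u} [Field K] [Field L] [Algebra K L] {m N : ℕ}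

/-- coordinate ring of the intersection of the charts `v ∈ σ` -/
def As (Y : PMod K L m N) (σ : Finset (Fin m)) : Subalgebra K L :=
  ⨆ v ∈ σ, Y.A v

/-- `K[h_w/h_v : w]` -/
def P (Y : PMod K L m N) (v : Fin m) : Subalgebra K L :=
  Algebra.adjoin K {z | ∃ w, z = Y.h w / Y.h v}

/-- `O(-∑ c_i D_i)` on the intersection of the charts `v ∈ σ` -/
def O (Y : PMod K L m N) (c : Fin m → Fin N → ℕ) (σ : Finset (Fin m)) : Set L :=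
  {z | ∀ v ∈ σ, z / ∏ i, Y.t v i ^ c v i ∈ Y.As σ}

structure Good (Y : PMod K L m N) : Prop where
  h_ne : ∀ v, Y.h v ≠ 0
  t_ne : ∀ v i, Y.t v i ≠ 0
  t_mem : ∀ v i, Y.t v i ∈ Y.A v
  fg : ∀ v, (Y.A v).FG
  h_mem : ∀ v w, Y.h w / Y.h v ∈ Y.A v
  glue : ∀ v w, Y.A w ≤ Algebra.adjoin K ((Y.A v : Set L) ∪ {Y.h v / Y.h w})
  fin : ∀ v, ∃ G : Finset L, (G : Set L) ⊆ Y.A v ∧
    ∀ x ∈ Y.A v, x ∈ Submodule.span (Y.P v) (G : Set L)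
  etale : ∀ v, (MvPolynomial.aeval (R := K) (fun i => (⟨Y.t v i, t_mem v i⟩ : Y.A v))).toRingHom.Etale
  c_le : ∀ v i, Y.c v i ≤ 1
  c_supp : ∀ v i, Y.c v i = 0 ↔ Y.c' v i = 0
  t_inv : ∀ v i, Y.c v i = 0 → (Y.t v i)⁻¹ ∈ Y.A v
  c_glue : ∀ v w, (∏ i, Y.t v i ^ Y.c v i) / (∏ i, Y.t w i ^ Y.c w i) ∈ Y.As {v, w}
  c'_glue : ∀ v w, (∏ i, Y.t v i ^ Y.c' v i) / (∏ i, Y.t w i ^ Y.c' w i) ∈ Y.As {v, w}

end PMod

/-- The injectivity theorem: `H(O(-D')) → H(O(-D))` is onto. -/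
def Stmt_INJ : Prop :=
  ∀ (K L : Type u) [Field K] [Field L] [Algebra K L] [CharZero K] (m N : ℕ) (Y : PMod K L m N),
    Y.Good → ∀ z : Finset (Fin m) → L, InC (Y.O Y.c) z → cd z = 0 →
      ∃ z' y : Finset (Fin m) → L, InC (Y.O Y.c') z' ∧ cd z' = 0 ∧ InC (Y.O Y.c) y ∧
        z = z' + cd y

/-! ## Area DI: the theorem of Deligne and Illusie over `Z/p²` -/

/-- A projective model over `Z/p²` with logarithmic étale coordinates; `Q` is the coordinate ring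
of the intersection of all charts minus the divisor. -/
structure DMod (p : ℕ) (Q : Type u) [CommRing Q] [Algebra (ZMod (p ^ 2)) Q] (m N : ℕ) where
  h : Fin m → Qˣ
  A : Fin m → Subalgebra (ZMod (p ^ 2)) Q
  t : Fin m → Fin N → Qˣ
  c : Fin m → Fin N → ℕ
  c' : Fin m → Fin N → ℕ

namespace DMod

variable {p : ℕ} {Q : Type u} [CommRing Q] [Algebra (ZMod (p ^ 2)) Q] {m N : ℕ}

def As (Y : DMod p Q m N) (σ : Finset (Fin m)) : Subalgebra (ZMod (p ^ 2)) Q :=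
  ⨆ v ∈ σ, Y.A v

/-- `O(-∑ c_i D_i)` modulo `p`, pulled back to `Q` -/
def O (Y : DMod p Q m N) (c : Fin m → Fin N → ℕ) (σ : Finset (Fin m)) : Set Q :=
  {z | ∀ v ∈ σ, ∃ a ∈ Y.As σ, ∃ q : Q, z = a * ∏ i, (Y.t v i : Q) ^ c v i + (p : Q) * q}

structure Good (Y : DMod p Q m N) : Prop where
  flat : ∀ x : Q, (p : Q) * x = 0 → ∃ y, x = (p : Q) * y
  sat : ∀ σ, σ.Nonempty → ∀ x : Q, (p : Q) * x ∈ Y.As σ → ∃ y ∈ Y.As σ, (p : Q) * y = (p : Q) * x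
  t_mem : ∀ v i, (Y.t v i : Q) ∈ Y.A v
  h_mem : ∀ v w, (Y.h w : Q) * ((Y.h v)⁻¹ : Qˣ) ∈ Y.A v
  glue : ∀ v w, Y.A w ≤ Algebra.adjoin (ZMod (p ^ 2))
    ((Y.A v : Set Q) ∪ {(Y.h v : Q) * ((Y.h w)⁻¹ : Qˣ)})
  fin : ∀ v, ∃ G : Finset Q, (G : Set Q) ⊆ Y.A v ∧
    ∀ x ∈ Y.A v, x ∈ Submodule.span (Prg (ZMod (p ^ 2)) Y.h {v}) (G : Set Q)
  loc : ∀ v, ∀ x : Q, ∃ e : ℕ, x * (∏ w, (Y.h w : Q) * ((Y.h v)⁻¹ : Qˣ)) ^ e *
    (∏ i, (Y.t v i : Q) ^ Y.c v i) ^ e ∈ Y.A v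
  etale : ∀ v, (MvPolynomial.aeval (R := ZMod (p ^ 2))
    (fun i => (⟨(Y.t v i : Q), t_mem v i⟩ : Y.A v))).toRingHom.Etale
  c_le : ∀ v i, Y.c v i ≤ 1
  c'_le : ∀ v i, Y.c' v i ≤ p
  c_supp : ∀ v i, Y.c v i = 0 ↔ Y.c' v i = 0
  t_inv : ∀ v i, Y.c v i = 0 → (((Y.t v i)⁻¹ : Qˣ) : Q) ∈ Y.A v
  c_glue : ∀ v w, (∏ i, (Y.t v i : Q) ^ Y.c v i) * (∏ i, (((Y.t w i)⁻¹ : Qˣ) : Q) ^ Y.c w i) ∈
    Y.As {v, w}
  c'_glue : ∀ v w, (∏ i, (Y.t v i : Q) ^ Y.c' v i) *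
    (∏ i, (((Y.t w i)⁻¹ : Qˣ) : Q) ^ Y.c' w i) ∈ Y.As {v, w}

end DMod

/-- The injectivity theorem modulo `p`. -/
def Stmt_DI : Prop :=
  ∀ (p : ℕ) [Fact p.Prime] (Q : Type u) [CommRing Q] [Algebra (ZMod (p ^ 2)) Q] (m N : ℕ)
    (Y : DMod p Q m N), Y.Good → N < p →
    ∀ z : Finset (Fin m) → Q, InC (Y.O Y.c) z → (∀ σ, ∃ q, cd z σ = (p : Q) * q) →
      ∃ z' y : Finset (Fin m) → Q, InC (Y.O Y.c') z' ∧ (∀ σ, ∃ q, cd z' σ = (p : Q) * q) ∧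
        InC (Y.O Y.c) y ∧ ∀ σ, ∃ q, z σ = z' σ + cd y σ + (p : Q) * q

/-! ## Area SUR: surjectivity for the blow-up -/

def Stmt_SUR0 : Prop :=
  ∀ (k : Type u) [Field k] [CharZero k] (n : ℕ) (D : Dat k n), D.Good → D.LogSmooth →
    ∀ z, D.InB 0 z → dd z = 0 → ∃ y, D.InQ 0 y ∧ dd y = z

def Stmt_SUR1 : Prop :=
  ∀ (k : Type u) [Field k] [CharZero k] (n : ℕ) (D : Dat k n) (l : Pol k n), D.Good →
    l.IsHomogeneous 1 → l ≠ 0 → D.LogSmoothH l → ∀ t : ℕ, 1 ≤ t →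
    ∀ z, D.InB (-1) z → dd z = 0 → ∃ y w, D.InB (-1) y ∧ D.InQ (-(t : ℤ)) w ∧
      (∀ σ, dd w σ ∅ = 0) ∧ ∀ σ τ, z σ τ = dd y σ τ + inc k n l ^ (t - 1) * dd w σ τ

end

end Pool.Agent.DBX
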